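import Pool.Agent.Helper59.LL_D

/-!
# Levy-Lieb functional, task D6: pair interaction energy of a Slater determinant
-/

open MeasureTheory Filter Topology
open scoped ENNReal

noncomputable section

namespace Pool.Agent.Helper59.LL

open Pool.Agent.Helper1.LL

section perm2

theorem perm_eq_or_mul_swap {ι : Type*} [DecidableEq ι] {σ τ : Equiv.Perm ι} {i j : ι}
    (hij : i ≠ j) (h : ∀ k, k ≠ i → k ≠ j → σ k = τ k) :
    τ = σ ∨ τ = σ * Equiv.swap i j := by
  by_cases hi : σ i = τ i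
  · left
    refine perm_eq_of_eq_off j fun k hk => ?_
    by_cases hki : k = i
    · rw [hki, hi]
    · exact (h k hki hk).symm
  · right
    refine perm_eq_of_eq_off j fun k hk => ?_
    by_cases hki : k = i
    · subst hki
      simp only [Equiv.Perm.coe_mul, Function.comp_apply, Equiv.swap_apply_left]
      obtain ⟨l, hl⟩ := σ.surjective (τ k)
      have hlk : l ≠ k := by
        rintro rfl
        exact hi hl
      by_cases hlj : l = j
      · rw [← hlj, hl]
      · have := h l hlk hlj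
        rw [hl] at this
        exact absurd (τ.injective this).symm hlk
    · simp only [Equiv.Perm.coe_mul, Function.comp_apply, Equiv.swap_apply_of_ne_of_ne hki hk]
      exact (h k hki hk).symm

theorem exists_perm_two {ι : Type*} [DecidableEq ι] {a b i j : ι} (hab : a ≠ b) (hij : i ≠ j) :
    ∃ π : Equiv.Perm ι, π a = i ∧ π b = j := by
  refine ⟨Equiv.swap (Equiv.swap a i b) j * Equiv.swap a i, ?_, ?_⟩
  · simp only [Equiv.Perm.coe_mul, Function.comp_apply, Equiv.swap_apply_left]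
    refine Equiv.swap_apply_of_ne_of_ne ?_ hij
    intro h
    have h2 : Equiv.swap a i a = Equiv.swap a i b := by rw [Equiv.swap_apply_left]; exact h
    exact hab ((Equiv.swap a i).injective h2)
  · simp only [Equiv.Perm.coe_mul, Function.comp_apply, Equiv.swap_apply_left]

theorem sum_perm_apply_two {m : ℕ} (H : Fin (m + 2) → Fin (m + 2) → ℂ)
    (hH : ∀ k, H k k = 0) :
    ((m + 2 : ℂ) * (m + 1)) * ∑ σ : Equiv.Perm (Fin (m + 2)), H (σ 0) (σ 1) =
      ((m + 2).factorial : ℂ) * ∑ k, ∑ l, H k l := by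
  set S := ∑ σ : Equiv.Perm (Fin (m + 2)), H (σ 0) (σ 1) with hS
  have h1 : ∀ i j, i ≠ j → ∑ σ : Equiv.Perm (Fin (m + 2)), H (σ i) (σ j) = S := by
    intro i j hij
    obtain ⟨π, h0, h1⟩ := exists_perm_two (a := i) (b := j) (i := (0 : Fin (m + 2))) (j := 1) hij
      (by simp)
    rw [← Equiv.sum_comp (Equiv.mulRight π)]
    refine Finset.sum_congr rfl fun σ _ => ?_
    simp [h0, h1]
  have h2 : ∑ i, ∑ j, ∑ σ : Equiv.Perm (Fin (m + 2)), H (σ i) (σ j) =
      ((m + 2 : ℂ) * (m + 1)) * S := by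
    have : ∀ i : Fin (m + 2), ∑ j, ∑ σ : Equiv.Perm (Fin (m + 2)), H (σ i) (σ j)
        = (m + 1 : ℂ) * S := by
      intro i
      rw [← Finset.sum_erase_add _ _ (Finset.mem_univ i)]
      have h3 : ∑ σ : Equiv.Perm (Fin (m + 2)), H (σ i) (σ i) = 0 :=
        Finset.sum_eq_zero fun σ _ => hH _
      rw [h3, add_zero, Finset.sum_congr rfl fun j hj => h1 i j (Finset.ne_of_mem_erase hj).symm]
      simp [Finset.card_erase_of_mem]
    rw [Finset.sum_congr rfl fun i _ => this i]
    simp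
    ring
  rw [← h2]
  have h3 : ∑ i, ∑ j, ∑ σ : Equiv.Perm (Fin (m + 2)), H (σ i) (σ j) =
      ∑ σ : Equiv.Perm (Fin (m + 2)), ∑ i, ∑ j, H (σ i) (σ j) := by
    rw [Finset.sum_congr rfl fun i _ => Finset.sum_comm, Finset.sum_comm]
  rw [h3]
  have h4 : ∀ σ : Equiv.Perm (Fin (m + 2)), ∑ i, ∑ j, H (σ i) (σ j) = ∑ k, ∑ l, H k l := by
    intro σ
    rw [← Equiv.sum_comp σ (fun k => ∑ l, H k l)]
    refine Finset.sum_congr rfl fun i _ => ?_
    exact Equiv.sum_comp σ (H (σ i))
  rw [Finset.sum_congr rfl fun σ _ => h4 σ]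
  simp [Fintype.card_perm]

end perm2


section pair

theorem slater_cons_cons {X : Type*} {m : ℕ} (φ : Fin (m + 2) → X → ℂ) (a b : X)
    (y : Fin m → X) :
    slater φ (Fin.cons a (Fin.cons b y)) = ((Real.sqrt ((m + 2).factorial : ℝ) : ℝ) : ℂ)⁻¹ *
      comb (fun σ : Equiv.Perm (Fin (m + 2)) =>
          ((Equiv.Perm.sign σ : ℤ) : ℂ) * (φ (σ 0) a * φ (σ 1) b))
        (fun σ (j : Fin m) => φ (σ j.succ.succ)) y := by
  rw [slater_eq, gdet_eq_comb]
  congr 1
  unfold comb
  refine Finset.sum_congr rfl fun σ _ => ?_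
  rw [Fin.prod_univ_succ, Fin.prod_univ_succ]
  simp [mul_assoc]

variable {X : Type*} [MeasureSpace X] [SigmaFinite (volume : Measure X)]

theorem slater_pairDensity {m : ℕ} (φ : Fin (m + 2) → X → ℂ) (hφ : ON φ) (a b : X) :
    ((m + 2 : ℝ) * (m + 1)) * ∫ y : Fin m → X, ‖slater φ (Fin.cons a (Fin.cons b y))‖ ^ 2 =
      pairDens φ a b := by
  set A : Equiv.Perm (Fin (m + 2)) → ℂ := fun σ =>
    ((Equiv.Perm.sign σ : ℤ) : ℂ) * (φ (σ 0) a * φ (σ 1) b) with hA
  set C := comb A (fun σ (j : Fin m) => φ (σ j.succ.succ)) with hC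
  set s : Equiv.Perm (Fin (m + 2)) := Equiv.swap 0 1 with hs
  have hs1 : (0 : Fin (m + 2)) ≠ 1 := by simp
  have h1 : ∫ y : Fin m → X, ‖slater φ (Fin.cons a (Fin.cons b y))‖ ^ 2 =
      ((m + 2).factorial : ℝ)⁻¹ * ∫ y, ‖C y‖ ^ 2 := by
    rw [← integral_const_mul]
    refine integral_congr_ae (Eventually.of_forall fun y => ?_)
    simp only [slater_cons_cons]
    exact norm_sq_const_mul _
  have h2 : ((∫ y, ‖C y‖ ^ 2 : ℝ) : ℂ) =
      ∑ σ : Equiv.Perm (Fin (m + 2)), star (A σ) * (A σ + A (σ * s)) := by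
    rw [hC, integral_comb _ _ fun σ j => hφ.1 _]
    refine Finset.sum_congr rfl fun σ _ => ?_
    rw [Finset.sum_eq_add σ (σ * s)]
    · have e1 : ∏ j : Fin m, ∫ x, star (φ (σ j.succ.succ) x) * φ (σ j.succ.succ) x = 1 := by
        refine Finset.prod_eq_one fun j _ => ?_
        rw [hφ.2, if_pos rfl]
      have e2 : ∏ j : Fin m, ∫ x, star (φ (σ j.succ.succ) x) * φ ((σ * s) j.succ.succ) x = 1 := by
        refine Finset.prod_eq_one fun j _ => ?_
        have : (σ * s) j.succ.succ = σ j.succ.succ := by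
          simp only [Equiv.Perm.coe_mul, Function.comp_apply, hs]
          rw [Equiv.swap_apply_of_ne_of_ne]
          · exact Fin.succ_ne_zero _
          · intro h
            have := congrArg Fin.val h
            simp at this
        rw [this, hφ.2, if_pos rfl]
      rw [e1, e2]
      ring
    · intro h
      have : (1 : Equiv.Perm (Fin (m + 2))) = s := by
        have := congrArg (fun τ => σ⁻¹ * τ) h
        simpa using this
      have h0 := congrArg (fun τ : Equiv.Perm (Fin (m + 2)) => τ 0) this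
      simp [hs] at h0
    · rintro τ _ ⟨hτ1, hτ2⟩
      obtain ⟨j, hj⟩ : ∃ j : Fin m, σ j.succ.succ ≠ τ j.succ.succ := by
        by_contra hcon
        push Not at hcon
        have := perm_eq_or_mul_swap (σ := σ) (τ := τ) hs1 fun k hk0 hk1 => ?_
        · rcases this with h | h
          · exact hτ1 h
          · exact hτ2 h
        · obtain ⟨k', rfl⟩ := Fin.exists_succ_eq.2 hk0
          have hk' : k' ≠ 0 := by
            rintro rfl
            exact hk1 (by simp)
          obtain ⟨k'', rfl⟩ := Fin.exists_succ_eq.2 hk'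
          exact hcon k''
      rw [Finset.prod_eq_zero (Finset.mem_univ j), mul_zero]
      rw [hφ.2, if_neg hj]
    · simp
    · simp
  set P : Fin (m + 2) → Fin (m + 2) → ℂ := fun k l => φ k a * φ l b - φ l a * φ k b with hP
  have h3 : ∀ σ : Equiv.Perm (Fin (m + 2)), A σ + A (σ * s) =
      ((Equiv.Perm.sign σ : ℤ) : ℂ) * P (σ 0) (σ 1) := by
    intro σ
    simp only [hA, hP, hs, Equiv.Perm.sign_mul, Equiv.Perm.sign_swap hs1, Equiv.Perm.coe_mul,
      Function.comp_apply, Equiv.swap_apply_left, Equiv.swap_apply_right]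
    push_cast
    ring
  have hss : ∀ σ : Equiv.Perm (Fin (m + 2)), σ * s * s = σ := by
    intro σ
    rw [mul_assoc, hs, Equiv.swap_mul_self, mul_one]
  have h4 : (2 : ℂ) * ∑ σ : Equiv.Perm (Fin (m + 2)), star (A σ) * (A σ + A (σ * s)) =
      ∑ σ : Equiv.Perm (Fin (m + 2)), ((‖P (σ 0) (σ 1)‖ ^ 2 : ℝ) : ℂ) := by
    have h5 : ∑ σ : Equiv.Perm (Fin (m + 2)), star (A σ) * (A σ + A (σ * s)) =
        ∑ σ : Equiv.Perm (Fin (m + 2)), star (A (σ * s)) * (A σ + A (σ * s)) := by
      rw [← Equiv.sum_comp (Equiv.mulRight s)]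
      refine Finset.sum_congr rfl fun σ _ => ?_
      simp only [Equiv.coe_mulRight]
      rw [hss, add_comm (A (σ * s))]
    rw [two_mul]
    nth_rewrite 2 [h5]
    rw [← Finset.sum_add_distrib]
    refine Finset.sum_congr rfl fun σ _ => ?_
    rw [← add_mul, ← star_add, h3, star_mul']
    have h6 : star (((Equiv.Perm.sign σ : ℤ) : ℂ)) * star (P (σ 0) (σ 1)) *
          (((Equiv.Perm.sign σ : ℤ) : ℂ) * P (σ 0) (σ 1)) =
          (star (((Equiv.Perm.sign σ : ℤ) : ℂ)) * ((Equiv.Perm.sign σ : ℤ) : ℂ)) *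
          (star (P (σ 0) (σ 1)) * P (σ 0) (σ 1)) := by ring
    rw [h6, star_sign_mul_sign, one_mul, Complex.star_def, ← Complex.normSq_eq_conj_mul_self,
        Complex.normSq_eq_norm_sq]
  have h7 := sum_perm_apply_two (fun k l => ((‖P k l‖ ^ 2 : ℝ) : ℂ)) (fun k => by simp [hP])
  rw [← h4, ← h2] at h7
  have h8 : ((m + 2 : ℝ) * (m + 1)) * (2 * ∫ y, ‖C y‖ ^ 2) =
      ((m + 2).factorial : ℝ) * ∑ k, ∑ l, ‖P k l‖ ^ 2 := by
    exact_mod_cast h7
  rw [h1]
  have h9 : ((m + 2).factorial : ℝ) ≠ 0 := by positivity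
  have h10 : pairDens φ a b = (1 / 2) * ∑ k, ∑ l, ‖P k l‖ ^ 2 := rfl
  rw [h10]
  field_simp
  linarith


omit [MeasureSpace X] [SigmaFinite (volume : Measure X)] in
theorem pairDens_nonneg {ι : Type*} [Fintype ι] (φ : ι → X → ℂ) (x y : X) :
    0 ≤ pairDens φ x y := by
  unfold pairDens
  positivity

theorem measurePreserving_comp_perm {N : ℕ} (π : Equiv.Perm (Fin N)) :
    MeasurePreserving (fun x : Fin N → X => x ∘ π) volume volume ∧
      MeasurableEmbedding (fun x : Fin N → X => x ∘ π) := by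
  have h := volume_measurePreserving_piCongrLeft (fun _ : Fin N => X) π.symm
  have he : (fun x : Fin N → X => x ∘ π) =
      (MeasurableEquiv.piCongrLeft (fun _ : Fin N => X) π.symm) := by
    ext x b
    have := Equiv.piCongrLeft_apply_apply (P := fun _ : Fin N => X) π.symm x (π b)
    rw [Equiv.symm_apply_apply] at this
    simp only [Function.comp_apply, MeasurableEquiv.coe_piCongrLeft]
    exact this.symm
  rw [he]
  exact ⟨h, MeasurableEquiv.measurableEmbedding _⟩

/-- Splitting off the first coordinate. -/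
theorem lintegral_fin_succ {n : ℕ} (f : (Fin (n + 1) → X) → ℝ≥0∞) (hf : AEMeasurable f volume) :
    ∫⁻ x, f x = ∫⁻ a : X, ∫⁻ y : Fin n → X, f (Fin.cons a y) := by
  have h := (volume_preserving_piFinSuccAbove (fun _ : Fin (n + 1) => X) 0).symm
  rw [← h.lintegral_comp_emb (MeasurableEquiv.measurableEmbedding _)]
  have h2 : AEMeasurable (fun p : X × (Fin n → X) =>
      f ((MeasurableEquiv.piFinSuccAbove (fun _ : Fin (n + 1) => X) 0).symm p)) volume :=
    hf.comp_quasiMeasurePreserving h.quasiMeasurePreserving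
  have h3 := lintegral_prod _ h2
  refine h3.trans ?_
  refine lintegral_congr fun a => lintegral_congr fun y => ?_
  congr 1
  rw [MeasurableEquiv.piFinSuccAbove_symm_apply]
  simp [Fin.insertNthEquiv]

theorem aemeasurable_normSq {Y : Type*} [MeasurableSpace Y] {μ : Measure Y} {f : Y → ℂ}
    (hf : AEStronglyMeasurable f μ) :
    AEMeasurable (fun y => ENNReal.ofReal (‖f y‖ ^ 2)) μ :=
  (hf.norm.aemeasurable.pow_const 2).ennreal_ofReal

theorem memLp_slater_cons {n : ℕ} (φ : Fin (n + 1) → X → ℂ) (hφ : ∀ k, MemLp (φ k) 2 volume)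
    (a : X) : MemLp (fun y : Fin n → X => slater φ (Fin.cons a y)) 2 volume := by
  simp_rw [slater_cons]
  exact (memLp_comb _ _ fun σ j => hφ _).const_mul _

theorem memLp_slater_cons_cons {m : ℕ} (φ : Fin (m + 2) → X → ℂ)
    (hφ : ∀ k, MemLp (φ k) 2 volume) (a b : X) :
    MemLp (fun y : Fin m → X => slater φ (Fin.cons a (Fin.cons b y))) 2 volume := by
  simp_rw [slater_cons_cons]
  exact (memLp_comb _ _ fun σ j => hφ _).const_mul _

theorem lintegral_pair_zero_one {m : ℕ} (φ : Fin (m + 2) → X → ℂ) (hφ : ON φ)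
    (W : X → X → ℝ≥0∞) (hW : Measurable (Function.uncurry W)) :
    ∫⁻ x : Fin (m + 2) → X, W (x 0) (x 1) * ENNReal.ofReal (‖slater φ x‖ ^ 2) =
      ENNReal.ofReal (((m + 2 : ℝ) * (m + 1))⁻¹) *
        ∫⁻ a, ∫⁻ b, W a b * ENNReal.ofReal (pairDens φ a b) := by
  have hWm : Measurable fun x : Fin (m + 2) → X => W (x 0) (x 1) := by
    have := hW.comp ((measurable_pi_apply (0 : Fin (m + 2))).prodMk
      (measurable_pi_apply (X := fun _ : Fin (m + 2) => X) (1 : Fin (m + 2))))
    exact this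
  have hfirst := lintegral_fin_succ
    (fun x : Fin (m + 2) → X => W (x 0) (x 1) * ENNReal.ofReal (‖slater φ x‖ ^ 2))
    (hWm.aemeasurable.mul (aemeasurable_normSq (slater_memLp φ hφ.1).aestronglyMeasurable))
  rw [hfirst]
  have hsplit : ∀ a : X, ∫⁻ y : Fin (m + 1) → X, W ((Fin.cons a y : Fin (m + 2) → X) 0)
        ((Fin.cons a y : Fin (m + 2) → X) 1) * ENNReal.ofReal (‖slater φ (Fin.cons a y)‖ ^ 2)
      = ∫⁻ b, ENNReal.ofReal (((m + 2 : ℝ) * (m + 1))⁻¹) *
          (W a b * ENNReal.ofReal (pairDens φ a b)) := by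
    intro a
    have e1 : ∀ y : Fin (m + 1) → X, W ((Fin.cons a y : Fin (m + 2) → X) 0)
        ((Fin.cons a y : Fin (m + 2) → X) 1) = W a (y 0) := by
      intro y
      rfl
    simp_rw [e1]
    have hWa : Measurable fun y : Fin (m + 1) → X => W a (y 0) :=
      hW.comp (measurable_const.prodMk (measurable_pi_apply 0))
    have hsec := lintegral_fin_succ
      (fun y : Fin (m + 1) → X => W a (y 0) * ENNReal.ofReal (‖slater φ (Fin.cons a y)‖ ^ 2))
      (hWa.aemeasurable.mul
        (aemeasurable_normSq (memLp_slater_cons φ hφ.1 a).aestronglyMeasurable))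
    rw [hsec]
    refine lintegral_congr fun b => ?_
    have e2 : ∀ y : Fin m → X, (Fin.cons b y : Fin (m + 1) → X) 0 = b := fun y => rfl
    simp_rw [e2]
    have hL := memLp_slater_cons_cons φ hφ.1 a b
    rw [lintegral_const_mul'' _ (aemeasurable_normSq hL.aestronglyMeasurable)]
    rw [← ofReal_integral_eq_lintegral_ofReal
      ((memLp_two_iff_integrable_sq_norm hL.aestronglyMeasurable).1 hL)
      (Eventually.of_forall fun y => by positivity)]
    have hp := slater_pairDensity φ hφ a b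
    have hpos : (0 : ℝ) < (m + 2 : ℝ) * (m + 1) := by positivity
    have hp' : ∫ y : Fin m → X, ‖slater φ (Fin.cons a (Fin.cons b y))‖ ^ 2 =
        ((m + 2 : ℝ) * (m + 1))⁻¹ * pairDens φ a b := by
      rw [← hp, ← mul_assoc, inv_mul_cancel₀ hpos.ne', one_mul]
    rw [hp', ENNReal.ofReal_mul (by positivity)]
    ring
  rw [lintegral_congr hsplit]
  simp_rw [lintegral_const_mul' _ _ ENNReal.ofReal_ne_top]

theorem sum_card_Ioi (n : ℕ) : 2 * ∑ i : Fin n, (Finset.Ioi i).card = n * (n - 1) := by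
  have h1 : ∑ i : Fin n, (Finset.Ioi i).card = ∑ i ∈ Finset.range n, (n - 1 - i) := by
    rw [← Fin.sum_univ_eq_sum_range (fun i => n - 1 - i)]
    simp
  rw [h1, Finset.sum_range_reflect (fun i => i) n, mul_comm, Finset.sum_range_id_mul_two]

/-- D6. pair interaction energy -/
theorem slater_pair {N : ℕ} (φ : Fin N → X → ℂ) (hφ : ON φ) (W : X → X → ℝ≥0∞)
    (hW : Measurable (Function.uncurry W)) (hsymm : ∀ x y, W x y = W y x) :
    ∫⁻ x : Fin N → X, (∑ i, ∑ j ∈ Finset.Ioi i, W (x i) (x j)) * ENNReal.ofReal (‖slater φ x‖ ^ 2)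
      = 2⁻¹ * ∫⁻ x, ∫⁻ y, W x y * ENNReal.ofReal (pairDens φ x y) := by
  obtain _ | _ | m := N
  · simp [pairDens]
  · simp [pairDens]
  · have hS := aemeasurable_normSq (slater_memLp φ hφ.1).aestronglyMeasurable
    obtain ⟨I₀, hI₀⟩ : ∃ I, I = ∫⁻ x : Fin (m + 2) → X,
      W (x 0) (x 1) * ENNReal.ofReal (‖slater φ x‖ ^ 2) := ⟨_, rfl⟩
    have hWm : ∀ i j, Measurable fun x : Fin (m + 2) → X => W (x i) (x j) := by
      intro i j
      have := hW.comp ((measurable_pi_apply i).prodMk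
        (measurable_pi_apply (X := fun _ : Fin (m + 2) => X) j))
      exact this
    have hpair : ∀ i j : Fin (m + 2), i ≠ j →
        ∫⁻ x : Fin (m + 2) → X, W (x i) (x j) * ENNReal.ofReal (‖slater φ x‖ ^ 2) = I₀ := by
      intro i j hij
      obtain ⟨π, h0, h1⟩ := exists_perm_two (a := (0 : Fin (m + 2))) (b := 1) (i := i) (j := j)
        (by simp) hij
      obtain ⟨hmp, hme⟩ := measurePreserving_comp_perm (X := X) π
      rw [hI₀, ← hmp.lintegral_comp_emb hme
        (fun x => W (x 0) (x 1) * ENNReal.ofReal (‖slater φ x‖ ^ 2))]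
      refine lintegral_congr fun x => ?_
      have hsg : ‖(((Equiv.Perm.sign π : ℤ)) : ℂ)‖ = 1 := by
        rcases Int.units_eq_one_or (Equiv.Perm.sign π) with h | h <;> simp [h]
      rw [slater_antisymm, norm_mul, hsg, one_mul]
      simp [h0, h1]
    have hsum : ∫⁻ x : Fin (m + 2) → X, (∑ i, ∑ j ∈ Finset.Ioi i, W (x i) (x j)) *
        ENNReal.ofReal (‖slater φ x‖ ^ 2) = ∑ i : Fin (m + 2), ∑ j ∈ Finset.Ioi i, I₀ := by
      simp_rw [Finset.sum_mul]
      rw [lintegral_finsetSum']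
      · refine Finset.sum_congr rfl fun i _ => ?_
        rw [lintegral_finsetSum']
        · refine Finset.sum_congr rfl fun j hj => ?_
          exact hpair i j (Finset.mem_Ioi.1 hj).ne
        · intro j _
          exact (hWm i j).aemeasurable.mul hS
      · intro i _
        refine Finset.aemeasurable_fun_sum _ fun j _ => ?_
        exact (hWm i j).aemeasurable.mul hS
    rw [hsum, hI₀, lintegral_pair_zero_one φ hφ W hW]
    simp only [Finset.sum_const, nsmul_eq_mul]
    rw [← Finset.sum_mul, ← mul_assoc]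
    congr 1
    have hc := sum_card_Ioi (m + 2)
    have hc2 : (2 : ℝ) * ∑ i : Fin (m + 2), ((Finset.Ioi i).card : ℝ) = (m + 2) * (m + 1) := by
      have : ((2 * ∑ i : Fin (m + 2), (Finset.Ioi i).card : ℕ) : ℝ)
        = (((m + 2) * (m + 2 - 1) : ℕ) : ℝ) := by rw [hc]
      have h3 : m + 2 - 1 = m + 1 := by omega
      rw [h3] at this
      push_cast at this
      exact this
    have hc3 : ∑ i : Fin (m + 2), ((Finset.Ioi i).card : ℝ≥0∞) =
        ENNReal.ofReal (∑ i : Fin (m + 2), ((Finset.Ioi i).card : ℝ)) := by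
      rw [ENNReal.ofReal_sum_of_nonneg (fun i _ => by positivity)]
      simp
    rw [hc3, ← ENNReal.ofReal_mul (by positivity)]
    have h2 : (2 : ℝ≥0∞)⁻¹ = ENNReal.ofReal (2⁻¹) := by
      rw [ENNReal.ofReal_inv_of_pos (by norm_num)]
      simp
    rw [h2]
    congr 1
    have hpos : (0 : ℝ) < (m + 2 : ℝ) * (m + 1) := by positivity
    field_simp
    linarith

end pair

end Pool.Agent.Helper59.LL
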