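import Mathlib

/-! Bertrand's postulate in the sharper form: for `m ≥ 4` there is a prime `p` with
`m < p ≤ 2 m - 3`. -/

set_option autoImplicit false

namespace Pool.Agent.Helper59.Bert3

section Real

open Real

private theorem real_main {x : ℝ} (x_large : (512 : ℝ) ≤ x) :
    (2 * x * x) * (2 * x) ^ √(2 * x) * 4 ^ (2 * x / 3) ≤ 4 ^ x := by
  let f : ℝ → ℝ := fun x => log x + log x + √(2 * x) * log (2 * x) - (log 4 / 3 * x - log 2)
  have hf' : ∀ x, 0 < x → 0 < (2 * x * x) * (2 * x) ^ √(2 * x) / 4 ^ (x / 3) := fun x h =>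
    div_pos (mul_pos (by positivity) (rpow_pos_of_pos (mul_pos two_pos h) _))
      (rpow_pos_of_pos four_pos _)
  have hf : ∀ x, 0 < x → f x = log ((2 * x * x) * (2 * x) ^ √(2 * x) / 4 ^ (x / 3)) := by
    intro x h5
    have h6 := mul_pos (zero_lt_two' ℝ) h5
    have h7 := rpow_pos_of_pos h6 (√(2 * x))
    rw [log_div (mul_pos (by positivity) h7).ne' (rpow_pos_of_pos four_pos _).ne',
      log_mul (by positivity) h7.ne',
      log_rpow h6, log_rpow zero_lt_four, ← mul_div_right_comm, ← mul_div, mul_comm x]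
    rw [log_mul (by positivity) h5.ne', log_mul (by norm_num) h5.ne']
    simp only [f]
    rw [log_mul (by norm_num) h5.ne']
    ring
  have h5 : 0 < x := lt_of_lt_of_le (by norm_num1) x_large
  rw [← div_le_one (rpow_pos_of_pos four_pos x), ← div_div_eq_mul_div, ← rpow_sub four_pos, ←
    mul_div 2 x, mul_div_left_comm, ← mul_one_sub, (by norm_num1 : (1 : ℝ) - 2 / 3 = 1 / 3),
    mul_one_div, ← log_nonpos_iff (hf' x h5).le, ← hf x h5]
  have h : ConcaveOn ℝ (Set.Ioi 0.5) f := by
    apply ConcaveOn.sub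
    · apply ConcaveOn.add
      · apply ConcaveOn.add
        · exact strictConcaveOn_log_Ioi.concaveOn.subset
            (Set.Ioi_subset_Ioi (by norm_num)) (convex_Ioi 0.5)
        · exact strictConcaveOn_log_Ioi.concaveOn.subset
            (Set.Ioi_subset_Ioi (by norm_num)) (convex_Ioi 0.5)
      convert!
        ((strictConcaveOn_sqrt_mul_log_Ioi.concaveOn.comp_linearMap ((2 : ℝ) • LinearMap.id)))
        using 1
      ext x
      simp only [Set.mem_Ioi, Set.mem_preimage, LinearMap.smul_apply,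
        LinearMap.id_coe, id_eq, smul_eq_mul]
      rw [← mul_lt_mul_iff_right₀ (two_pos)]
      norm_num1
      rfl
    apply ConvexOn.sub
    · apply ConvexOn.smul
      · refine div_nonneg (log_nonneg (by norm_num1)) (by norm_num1)
      · exact convexOn_id (convex_Ioi (0.5 : ℝ))
    · exact concaveOn_const _ (convex_Ioi (0.5 : ℝ))
  suffices ∃ x1 x2, 0.5 < x1 ∧ x1 < x2 ∧ x2 ≤ x ∧ 0 ≤ f x1 ∧ f x2 ≤ 0 by
    obtain ⟨x1, x2, h1, h2, h0, h3, h4⟩ := this
    exact (h.right_le_of_le_left'' h1 ((h1.trans h2).trans_le h0) h2 h0 (h4.trans h3)).trans h4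
  refine ⟨18, 512, by norm_num1, by norm_num1, x_large, ?_, ?_⟩
  · have : √(2 * 18 : ℝ) = 6 := (sqrt_eq_iff_mul_self_eq_of_pos (by norm_num1)).mpr (by norm_num1)
    rw [hf _ (by norm_num1), log_nonneg_iff (by positivity), this, one_le_div (by norm_num1)]
    norm_num1
  · have : √(2 * 512) = 32 :=
      (sqrt_eq_iff_mul_self_eq_of_pos (by norm_num1)).mpr (by norm_num1)
    rw [hf _ (by norm_num1), log_nonpos_iff (hf' _ (by norm_num1)).le, this,
        div_le_one (by positivity)]
    conv in 2 * 512 * 512 => equals 2 ^ 19 => norm_num1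
    conv in 2 * 512 => equals 2 ^ 10 => norm_num1
    conv in (512 : ℝ) / 3 => equals 2 ^ 9 / 3 => norm_num1
    conv in 32 => rw [← Nat.cast_ofNat]
    rw [rpow_natCast, ← pow_mul, ← pow_add]
    conv in 4 => equals 2 ^ (2 : ℝ) => rw [rpow_two]; norm_num1
    rw [← rpow_mul, ← rpow_natCast]
    on_goal 1 => apply rpow_le_rpow_of_exponent_le
    all_goals norm_num1

end Real

open Nat

private theorem main_ineq {n : ℕ} (n_large : 512 ≤ n) :
    (2 * n * n) * (2 * n) ^ sqrt (2 * n) * 4 ^ (2 * n / 3) ≤ 4 ^ n := by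
  rw [← @cast_le ℝ]
  simp only [cast_mul, cast_pow, ← Real.rpow_natCast, cast_ofNat]
  refine _root_.trans ?_ (real_main (by exact_mod_cast n_large))
  gcongr
  · have n2_pos : 0 < 2 * n := by positivity
    exact mod_cast n2_pos
  · exact_mod_cast Real.nat_sqrt_le_real_sqrt
  · norm_num1
  · exact cast_div_le.trans (by norm_cast)

private theorem fac_small (n : ℕ) (n_large : 2 < n)
    (no_prime : ∀ p : ℕ, p.Prime → n < p → p ≤ 2 * n → p = 2 * n - 1) :
    centralBinom n ≤ (∏ p ∈ Finset.range (2 * n / 3 + 1), p ^ (centralBinom n).factorization p)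
      * (2 * n) := by
  have h0 := n.prod_pow_factorization_centralBinom
  set g : ℕ → ℕ := fun p => p ^ (centralBinom n).factorization p with hg
  have hsub : insert (2 * n - 1) (Finset.range (2 * n / 3 + 1)) ⊆ Finset.range (2 * n + 1) := by
    intro x hx
    rw [Finset.mem_insert, Finset.mem_range] at hx
    rw [Finset.mem_range]
    omega
  have h1 : ∏ p ∈ insert (2 * n - 1) (Finset.range (2 * n / 3 + 1)), g p
      = ∏ p ∈ Finset.range (2 * n + 1), g p := by
    apply Finset.prod_subset hsub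
    intro x hx h2x
    rw [Finset.mem_range] at hx
    rw [Finset.mem_insert, Finset.mem_range, not_or] at h2x
    by_cases hp : x.Prime
    · have h3 : ¬ n < x := fun h => h2x.1 (no_prime x hp h (by omega))
      rw [hg]
      simp only
      rw [factorization_centralBinom_of_two_mul_self_lt_three_mul n_large (by omega) (by omega),
        Nat.pow_zero]
    · rw [hg]
      simp only
      rw [factorization_eq_zero_of_not_prime n.centralBinom hp, Nat.pow_zero]
  have h2 : centralBinom n = ∏ p ∈ insert (2 * n - 1) (Finset.range (2 * n / 3 + 1)), g p := by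
    rw [h1]; exact h0.symm
  rw [h2, Finset.prod_insert (by rw [Finset.mem_range]; omega), mul_comm]
  refine Nat.mul_le_mul_left _ ?_
  exact pow_factorization_choose_le (mul_pos two_pos (by omega))

private theorem cb_le (n : ℕ) (n_large : 2 < n)
    (no_prime : ∀ p : ℕ, p.Prime → n < p → p ≤ 2 * n → p = 2 * n - 1) :
    centralBinom n ≤ (2 * n) ^ sqrt (2 * n) * 4 ^ (2 * n / 3) * (2 * n) := by
  have n_pos : 0 < n := (Nat.zero_le _).trans_lt n_large
  have n2_pos : 1 ≤ 2 * n := mul_pos (zero_lt_two' ℕ) n_pos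
  let S := {p ∈ Finset.range (2 * n / 3 + 1) | Nat.Prime p}
  let f x := x ^ n.centralBinom.factorization x
  have : ∏ x ∈ S, f x = ∏ x ∈ Finset.range (2 * n / 3 + 1), f x := by
    refine Finset.prod_filter_of_ne fun p _ h => ?_
    contrapose h; dsimp only [f]
    rw [factorization_eq_zero_of_not_prime n.centralBinom h, _root_.pow_zero]
  refine (fac_small n n_large no_prime).trans (Nat.mul_le_mul_right _ ?_)
  rw [← this, ← Finset.prod_filter_mul_prod_filter_not S (· ≤ sqrt (2 * n))]
  apply mul_le_mul'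
  · refine (Finset.prod_le_prod' fun p _ => (?_ : f p ≤ 2 * n)).trans ?_
    · exact pow_factorization_choose_le (mul_pos two_pos n_pos)
    have : (Finset.Icc 1 (sqrt (2 * n))).card = sqrt (2 * n) := by rw [card_Icc, Nat.add_sub_cancel]
    rw [Finset.prod_const]
    refine pow_right_mono₀ n2_pos ((Finset.card_le_card fun x hx => ?_).trans this.le)
    obtain ⟨h1, h2⟩ := Finset.mem_filter.1 hx
    exact Finset.mem_Icc.mpr ⟨(Finset.mem_filter.1 h1).2.one_lt.le, h2⟩
  · refine le_trans ?_ (primorial_le_four_pow (2 * n / 3))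
    refine (Finset.prod_le_prod' fun p hp => (?_ : f p ≤ p)).trans ?_
    · obtain ⟨h1, h2⟩ := Finset.mem_filter.1 hp
      refine (pow_right_mono₀ (Finset.mem_filter.1 h1).2.one_lt.le ?_).trans (pow_one p).le
      exact Nat.factorization_choose_le_one (sqrt_lt'.mp <| not_le.1 h2)
    refine Finset.prod_le_prod_of_subset_of_one_le' (Finset.filter_subset _ _) ?_
    exact fun p hp _ => (Finset.mem_filter.1 hp).2.one_lt.le

private theorem large (n : ℕ) (n_large : 512 ≤ n) :
    ∃ p : ℕ, p.Prime ∧ n < p ∧ p + 3 ≤ 2 * n := by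
  have h4 : 4 ^ n < n * n.centralBinom :=
    Nat.four_pow_lt_mul_centralBinom n (le_trans (by norm_num1) n_large)
  by_contra hno
  push Not at hno
  have no_prime : ∀ p : ℕ, p.Prime → n < p → p ≤ 2 * n → p = 2 * n - 1 := by
    intro p hp h1 h2
    have h3 := hno p hp h1
    have hodd : p % 2 = 1 := by
      rcases hp.eq_two_or_odd with h | h
      · omega
      · exact h
    omega
  have := cb_le n (lt_of_lt_of_le (by norm_num1) n_large) no_prime
  have hm := main_ineq n_large
  have : n * n.centralBinom ≤ 4 ^ n := by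
    calc n * n.centralBinom ≤ n * ((2 * n) ^ sqrt (2 * n) * 4 ^ (2 * n / 3) * (2 * n)) :=
          Nat.mul_le_mul_left _ this
      _ = (2 * n * n) * (2 * n) ^ sqrt (2 * n) * 4 ^ (2 * n / 3) := by ring
      _ ≤ 4 ^ n := hm
  omega

/-- For `m ≥ 4` there is a prime `p` with `m < p ≤ 2 m - 3`. -/
theorem exists_prime (m : ℕ) (hm : 4 ≤ m) : ∃ p : ℕ, p.Prime ∧ m < p ∧ p + 3 ≤ 2 * m := by
  rcases le_or_gt 512 m with h | h
  · exact large m h
  by_cases h1 : m < 5
  · exact ⟨5, by norm_num, by omega, by omega⟩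
  by_cases h2 : m < 7
  · exact ⟨7, by norm_num, by omega, by omega⟩
  by_cases h3 : m < 11
  · exact ⟨11, by norm_num, by omega, by omega⟩
  by_cases h4 : m < 19
  · exact ⟨19, by norm_num, by omega, by omega⟩
  by_cases h5 : m < 31
  · exact ⟨31, by norm_num, by omega, by omega⟩
  by_cases h6 : m < 59
  · exact ⟨59, by norm_num, by omega, by omega⟩
  by_cases h7 : m < 113
  · exact ⟨113, by norm_num, by omega, by omega⟩
  by_cases h8 : m < 223
  · exact ⟨223, by norm_num, by omega, by omega⟩
  by_cases h9 : m < 443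
  · exact ⟨443, by norm_num, by omega, by omega⟩
  exact ⟨883, by norm_num, by omega, by omega⟩

/-- For `n ≥ 8` there is a prime `p` with `n / 2 < p ≤ n - 3`. -/
theorem exists_prime_half (n : ℕ) (hn : 8 ≤ n) : ∃ p : ℕ, p.Prime ∧ n < 2 * p ∧ p + 3 ≤ n := by
  obtain ⟨p, hp, h1, h2⟩ := exists_prime (n / 2) (by omega)
  exact ⟨p, hp, by omega, by omega⟩

end Pool.Agent.Helper59.Bert3
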