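import Pool.Agent.Helper1.LL.Defs

/-!
# Levy-Lieb functional, task D: Slater determinants, integral identities
-/

open MeasureTheory Filter Topology
open scoped ENNReal

noncomputable section

namespace Pool.Agent.Helper59.LL

open Pool.Agent.Helper1.LL

section aux

variable {X : Type*} [MeasureSpace X] [SigmaFinite (volume : Measure X)]

/-- Products of `L²` functions of the separate coordinates. -/
theorem aestronglyMeasurable_prodFun {J : Type*} [Fintype J] (F : J → X → ℂ)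
    (hF : ∀ j, AEStronglyMeasurable (F j) volume) :
    AEStronglyMeasurable (fun y : J → X => ∏ j, F j (y j)) volume := by
  refine Finset.aestronglyMeasurable_fun_prod _ fun j _ => ?_
  exact (hF j).comp_quasiMeasurePreserving (Measure.quasiMeasurePreserving_eval _ j)

theorem memLp_prodFun {J : Type*} [Fintype J] (F : J → X → ℂ)
    (hF : ∀ j, MemLp (F j) 2 volume) :
    MemLp (fun y : J → X => ∏ j, F j (y j)) 2 volume := by
  rw [memLp_two_iff_integrable_sq_norm
    (aestronglyMeasurable_prodFun F fun j => (hF j).aestronglyMeasurable)]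
  simp_rw [norm_prod, ← Finset.prod_pow]
  exact Integrable.fintype_prod (f := fun j x => ‖F j x‖ ^ 2)
    (fun j => (memLp_two_iff_integrable_sq_norm (hF j).aestronglyMeasurable).1 (hF j))

/-- A linear combination of products. -/
def comb {S J : Type*} [Fintype S] [Fintype J] (a : S → ℂ) (F : S → J → X → ℂ)
    (y : J → X) : ℂ := ∑ s, a s * ∏ j, F s j (y j)

theorem memLp_comb {S J : Type*} [Fintype S] [Fintype J] (a : S → ℂ) (F : S → J → X → ℂ)
    (hF : ∀ s j, MemLp (F s j) 2 volume) : MemLp (comb a F) 2 volume := by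
  unfold comb
  refine memLp_finsetSum _ fun s _ => ?_
  exact (memLp_prodFun (F s) (hF s)).const_mul _

theorem integrable_star_mul {Y : Type*} [MeasureSpace Y] {f g : Y → ℂ} (hf : MemLp f 2 volume)
    (hg : MemLp g 2 volume) : Integrable (fun y => star (f y) * g y) volume :=
  hf.star.integrable_mul hg

/-- The squared norm of a combination of products. -/
theorem integral_comb {S J : Type*} [Fintype S] [Fintype J] (a : S → ℂ) (F : S → J → X → ℂ)
    (hF : ∀ s j, MemLp (F s j) 2 volume) :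
    ((∫ y, ‖comb a F y‖ ^ 2 : ℝ) : ℂ) =
      ∑ s, ∑ t, star (a s) * a t * ∏ j, ∫ x, star (F s j x) * F t j x := by
  have h1 : ((∫ y, ‖comb a F y‖ ^ 2 : ℝ) : ℂ) =
      ∫ y : J → X, ∑ s, ∑ t, star (a s) * a t * ∏ j, (star (F s j (y j)) * F t j (y j)) := by
    rw [← integral_complex_ofReal]
    refine integral_congr_ae (Eventually.of_forall fun y => ?_)
    have : (((‖comb a F y‖ ^ 2 : ℝ)) : ℂ) = star (comb a F y) * comb a F y := by
      rw [Complex.star_def, ← Complex.normSq_eq_conj_mul_self, Complex.normSq_eq_norm_sq]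
    simp only [this]
    unfold comb
    rw [star_sum, Finset.sum_mul_sum]
    refine Finset.sum_congr rfl fun s _ => Finset.sum_congr rfl fun t _ => ?_
    rw [star_mul', star_prod, Finset.prod_mul_distrib]
    ring
  rw [h1, integral_finsetSum]
  · refine Finset.sum_congr rfl fun s _ => ?_
    rw [integral_finsetSum]
    · refine Finset.sum_congr rfl fun t _ => ?_
      rw [integral_const_mul]
      congr 1
      exact integral_fintype_prod_volume_eq_prod (fun j x => star (F s j x) * F t j x)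
    · intro t _
      refine Integrable.const_mul ?_ _
      exact Integrable.fintype_prod (f := fun j x => star (F s j x) * F t j x)
        (fun j => integrable_star_mul (hF s j) (hF t j))
  · intro s _
    refine integrable_finsetSum _ fun t _ => ?_
    refine Integrable.const_mul ?_ _
    exact Integrable.fintype_prod (f := fun j x => star (F s j x) * F t j x)
      (fun j => integrable_star_mul (hF s j) (hF t j))

end aux


section perm

theorem perm_eq_of_eq_off {ι : Type*} {σ τ : Equiv.Perm ι} (i : ι)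
    (h : ∀ j, j ≠ i → σ j = τ j) : σ = τ := by
  ext j
  by_cases hj : j = i
  · subst hj
    obtain ⟨j', hj'⟩ := τ.surjective (σ j)
    by_cases hjj : j' = j
    · rw [← hj', hjj]
    · have := h j' hjj
      rw [hj'] at this
      exact absurd (σ.injective this) hjj
  · exact h j hj

theorem sum_perm_apply {N : ℕ} (H : Fin N → ℂ) (i : Fin N) :
    (N : ℂ) * ∑ σ : Equiv.Perm (Fin N), H (σ i) = (N.factorial : ℂ) * ∑ k, H k := by
  have h1 : ∀ j, ∑ σ : Equiv.Perm (Fin N), H (σ j) = ∑ σ : Equiv.Perm (Fin N), H (σ i) := by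
    intro j
    rw [← Equiv.sum_comp (Equiv.mulRight (Equiv.swap i j))]
    refine Finset.sum_congr rfl fun σ _ => ?_
    simp
  have h2 : (N : ℂ) * ∑ σ : Equiv.Perm (Fin N), H (σ i)
      = ∑ j : Fin N, ∑ σ : Equiv.Perm (Fin N), H (σ j) := by
    rw [Finset.sum_congr rfl fun j _ => h1 j]
    simp
  rw [h2, Finset.sum_comm]
  have h3 : ∀ σ : Equiv.Perm (Fin N), ∑ j, H (σ j) = ∑ k, H k := fun σ => Equiv.sum_comp σ H
  rw [Finset.sum_congr rfl fun σ _ => h3 σ]
  simp [Fintype.card_perm]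

theorem star_sign_mul_sign {N : ℕ} (σ : Equiv.Perm (Fin N)) :
    star (((Equiv.Perm.sign σ : ℤ) : ℂ)) * ((Equiv.Perm.sign σ : ℤ) : ℂ) = 1 := by
  rcases Int.units_eq_one_or (Equiv.Perm.sign σ) with h | h <;> simp [h]

end perm

section det

/-- Determinant with column dependent functions. -/
def gdet {X : Type*} {N : ℕ} (f : Fin N → Fin N → X → ℂ) (x : Fin N → X) : ℂ :=
  Matrix.det (Matrix.of fun k j => f k j (x j))

theorem gdet_eq_comb {X : Type*} {N : ℕ} (f : Fin N → Fin N → X → ℂ) (x : Fin N → X) :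
    gdet f x = comb (fun σ : Equiv.Perm (Fin N) => ((Equiv.Perm.sign σ : ℤ) : ℂ))
      (fun σ j => f (σ j) j) x := by
  unfold gdet comb
  rw [Matrix.det_apply']
  simp

theorem slater_eq {X : Type*} {N : ℕ} (φ : Fin N → X → ℂ) (x : Fin N → X) :
    slater φ x = ((Real.sqrt (N.factorial : ℝ) : ℝ) : ℂ)⁻¹ * gdet (fun k _ => φ k) x := rfl

theorem slaterGrad_eq {X : Type*} {N : ℕ} (φ Dφ : Fin N → X → ℂ) (i : Fin N) (x : Fin N → X) :
    slaterGrad φ Dφ i x = ((Real.sqrt (N.factorial : ℝ) : ℝ) : ℂ)⁻¹ *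
      gdet (fun k j => if j = i then Dφ k else φ k) x := by
  unfold slaterGrad gdet
  congr 3
  ext k j
  by_cases h : j = i
  · simp [h]
  · simp [h]

theorem norm_sq_const_mul {N : ℕ} (z : ℂ) :
    ‖((Real.sqrt (N.factorial : ℝ) : ℝ) : ℂ)⁻¹ * z‖ ^ 2 = (N.factorial : ℝ)⁻¹ * ‖z‖ ^ 2 := by
  rw [norm_mul, mul_pow, norm_inv, inv_pow]
  congr 2
  rw [Complex.norm_real, Real.norm_eq_abs, sq_abs, Real.sq_sqrt (by positivity)]

/-- D1. -/
theorem slater_antisymm {X : Type*} {N : ℕ} (φ : Fin N → X → ℂ) (σ : Equiv.Perm (Fin N))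
    (x : Fin N → X) :
    slater φ (x ∘ σ) = ((Equiv.Perm.sign σ : ℤ) : ℂ) * slater φ x := by
  unfold slater
  have := Matrix.det_permute' σ (Matrix.of fun k j => φ k (x j))
  have h2 : (Matrix.of fun k j => φ k ((x ∘ σ) j)) =
      (Matrix.of fun k j => φ k (x j)).submatrix id σ := by
    ext k j
    simp
  rw [h2, this]
  ring

variable {X : Type*} [MeasureSpace X] [SigmaFinite (volume : Measure X)]

theorem memLp_gdet {N : ℕ} (f : Fin N → Fin N → X → ℂ) (hf : ∀ k j, MemLp (f k j) 2 volume) :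
    MemLp (gdet f) 2 volume := by
  have : gdet f = comb (fun σ : Equiv.Perm (Fin N) => ((Equiv.Perm.sign σ : ℤ) : ℂ))
      (fun σ j => f (σ j) j) := by
    ext x
    exact gdet_eq_comb f x
  rw [this]
  exact memLp_comb _ _ fun σ j => hf _ _

/-- D2. -/
theorem slater_memLp {N : ℕ} (φ : Fin N → X → ℂ) (hφ : ∀ k, MemLp (φ k) 2 volume) :
    MemLp (slater φ) 2 volume :=
  (memLp_gdet (fun k _ => φ k) fun k _ => hφ k).const_mul _

/-- D2'. -/
theorem slaterGrad_memLp {N : ℕ} (φ Dφ : Fin N → X → ℂ) (hφ : ∀ k, MemLp (φ k) 2 volume)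
    (hDφ : ∀ k, MemLp (Dφ k) 2 volume) (i : Fin N) :
    MemLp (slaterGrad φ Dφ i) 2 volume := by
  have : slaterGrad φ Dφ i = fun x => ((Real.sqrt (N.factorial : ℝ) : ℝ) : ℂ)⁻¹ *
      gdet (fun k j => if j = i then Dφ k else φ k) x := by
    ext x
    exact slaterGrad_eq φ Dφ i x
  rw [this]
  refine (memLp_gdet _ fun k j => ?_).const_mul _
  by_cases h : j = i
  · simpa [h] using hDφ k
  · simpa [h] using hφ k

/-- The general squared norm of a determinant. -/
theorem integral_gdet {N : ℕ} (f : Fin N → Fin N → X → ℂ) (hf : ∀ k j, MemLp (f k j) 2 volume) :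
    ((∫ x, ‖gdet f x‖ ^ 2 : ℝ) : ℂ) =
      ∑ σ : Equiv.Perm (Fin N), ∑ τ : Equiv.Perm (Fin N),
        star (((Equiv.Perm.sign σ : ℤ) : ℂ)) * ((Equiv.Perm.sign τ : ℤ) : ℂ) *
          ∏ j, ∫ x, star (f (σ j) j x) * f (τ j) j x := by
  have := integral_comb (fun σ : Equiv.Perm (Fin N) => ((Equiv.Perm.sign σ : ℤ) : ℂ))
      (fun σ j => f (σ j) j) (fun σ j => hf _ _)
  rw [← this]
  congr 1
  refine integral_congr_ae (Eventually.of_forall fun x => ?_)
  simp only
  rw [gdet_eq_comb]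

/-- D3. -/
theorem slater_normalized {N : ℕ} (φ : Fin N → X → ℂ) (hφ : ON φ) :
    ∫ x, ‖slater φ x‖ ^ 2 = 1 := by
  have h1 : ∫ x, ‖slater φ x‖ ^ 2 = (N.factorial : ℝ)⁻¹ * ∫ x, ‖gdet (fun k _ => φ k) x‖ ^ 2 := by
    rw [← integral_const_mul]
    refine integral_congr_ae (Eventually.of_forall fun x => ?_)
    simp only [slater_eq]
    exact norm_sq_const_mul _
  have h2 : ((∫ x, ‖gdet (fun k _ => φ k) x‖ ^ 2 : ℝ) : ℂ) = (N.factorial : ℂ) := by
    rw [integral_gdet _ fun k _ => hφ.1 k]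
    have : ∀ σ : Equiv.Perm (Fin N), ∑ τ : Equiv.Perm (Fin N),
        star (((Equiv.Perm.sign σ : ℤ) : ℂ)) * ((Equiv.Perm.sign τ : ℤ) : ℂ) *
          ∏ j, ∫ x, star (φ (σ j) x) * φ (τ j) x = 1 := by
      intro σ
      rw [Finset.sum_eq_single σ]
      · rw [star_sign_mul_sign, one_mul]
        refine Finset.prod_eq_one fun j _ => ?_
        rw [hφ.2, if_pos rfl]
      · intro τ _ hτ
        obtain ⟨j, hj⟩ : ∃ j, σ j ≠ τ j := by
          by_contra hcon
          push Not at hcon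
          exact hτ (Equiv.ext fun j => (hcon j).symm)
        rw [Finset.prod_eq_zero (Finset.mem_univ j), mul_zero]
        rw [hφ.2, if_neg hj]
      · simp
    rw [Finset.sum_congr rfl fun σ _ => this σ]
    simp [Fintype.card_perm]
  have h3 : ∫ x, ‖gdet (fun k _ => φ k) x‖ ^ 2 = (N.factorial : ℝ) := by exact_mod_cast h2
  rw [h1, h3]
  exact inv_mul_cancel₀ (by positivity)

theorem slater_cons {X : Type*} {n : ℕ} (φ : Fin (n + 1) → X → ℂ) (x : X) (y : Fin n → X) :
    slater φ (Fin.cons x y) = ((Real.sqrt ((n + 1).factorial : ℝ) : ℝ) : ℂ)⁻¹ *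
      comb (fun σ : Equiv.Perm (Fin (n + 1)) => ((Equiv.Perm.sign σ : ℤ) : ℂ) * φ (σ 0) x)
        (fun σ (j : Fin n) => φ (σ j.succ)) y := by
  rw [slater_eq, gdet_eq_comb]
  congr 1
  unfold comb
  refine Finset.sum_congr rfl fun σ _ => ?_
  rw [Fin.prod_univ_succ]
  simp [mul_assoc]

/-- D4. one-particle density -/
theorem slater_density {n : ℕ} (φ : Fin (n + 1) → X → ℂ) (hφ : ON φ) (x : X) :
    (n + 1 : ℝ) * ∫ y : Fin n → X, ‖slater φ (Fin.cons x y)‖ ^ 2 = ∑ k, ‖φ k x‖ ^ 2 := by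
  set C := comb (fun σ : Equiv.Perm (Fin (n + 1)) => ((Equiv.Perm.sign σ : ℤ) : ℂ) * φ (σ 0) x)
        (fun σ (j : Fin n) => φ (σ j.succ)) with hC
  have h1 : ∫ y : Fin n → X, ‖slater φ (Fin.cons x y)‖ ^ 2 =
      ((n + 1).factorial : ℝ)⁻¹ * ∫ y, ‖C y‖ ^ 2 := by
    rw [← integral_const_mul]
    refine integral_congr_ae (Eventually.of_forall fun y => ?_)
    simp only [slater_cons]
    exact norm_sq_const_mul _
  have h2 : ((∫ y, ‖C y‖ ^ 2 : ℝ) : ℂ) =
      ∑ σ : Equiv.Perm (Fin (n + 1)), ((‖φ (σ 0) x‖ ^ 2 : ℝ) : ℂ) := by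
    rw [hC, integral_comb _ _ fun σ j => hφ.1 _]
    refine Finset.sum_congr rfl fun σ _ => ?_
    rw [Finset.sum_eq_single σ]
    · have : ∏ j : Fin n, ∫ x, star (φ (σ j.succ) x) * φ (σ j.succ) x = 1 := by
        refine Finset.prod_eq_one fun j _ => ?_
        rw [hφ.2, if_pos rfl]
      rw [this, mul_one, star_mul']
      have h3 : star (((Equiv.Perm.sign σ : ℤ) : ℂ)) * star (φ (σ 0) x) *
          (((Equiv.Perm.sign σ : ℤ) : ℂ) * φ (σ 0) x) =
          (star (((Equiv.Perm.sign σ : ℤ) : ℂ)) * ((Equiv.Perm.sign σ : ℤ) : ℂ)) *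
          (star (φ (σ 0) x) * φ (σ 0) x) := by ring
      rw [h3, star_sign_mul_sign, one_mul, Complex.star_def, ← Complex.normSq_eq_conj_mul_self,
        Complex.normSq_eq_norm_sq]
    · intro τ _ hτ
      obtain ⟨j, hj⟩ : ∃ j : Fin n, σ j.succ ≠ τ j.succ := by
        by_contra hcon
        push Not at hcon
        refine hτ (perm_eq_of_eq_off (0 : Fin (n + 1)) fun j hj => ?_)
        obtain ⟨j', rfl⟩ := Fin.exists_succ_eq.2 hj
        exact (hcon j').symm
      rw [Finset.prod_eq_zero (Finset.mem_univ j), mul_zero]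
      rw [hφ.2, if_neg hj]
    · simp
  have h4 := sum_perm_apply (fun k => ((‖φ k x‖ ^ 2 : ℝ) : ℂ)) (0 : Fin (n + 1))
  rw [← h2] at h4
  have h5 : ((n : ℝ) + 1) * ∫ y, ‖C y‖ ^ 2 = ((n + 1).factorial : ℝ) * ∑ k, ‖φ k x‖ ^ 2 := by
    exact_mod_cast h4
  rw [h1]
  have h6 : ((n + 1).factorial : ℝ) ≠ 0 := by positivity
  field_simp
  linarith

/-- D5. kinetic energy of particle `i` -/
theorem slaterGrad_norm {N : ℕ} (φ Dφ : Fin N → X → ℂ) (hφ : ON φ)
    (hDφ : ∀ k, MemLp (Dφ k) 2 volume) (i : Fin N) :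
    ∫ x, ‖slaterGrad φ Dφ i x‖ ^ 2 = (N : ℝ)⁻¹ * ∑ k, ∫ x, ‖Dφ k x‖ ^ 2 := by
  have hN : (N : ℝ) ≠ 0 := by
    have := i.pos
    positivity
  set f : Fin N → Fin N → X → ℂ := fun k j => if j = i then Dφ k else φ k with hf
  have hfm : ∀ k j, MemLp (f k j) 2 volume := by
    intro k j
    by_cases h : j = i
    · simpa [hf, h] using hDφ k
    · simpa [hf, h] using hφ.1 k
  have h1 : ∫ x, ‖slaterGrad φ Dφ i x‖ ^ 2 = (N.factorial : ℝ)⁻¹ * ∫ x, ‖gdet f x‖ ^ 2 := by
    rw [← integral_const_mul]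
    refine integral_congr_ae (Eventually.of_forall fun x => ?_)
    simp only [slaterGrad_eq]
    exact norm_sq_const_mul _
  have h2 : ((∫ x, ‖gdet f x‖ ^ 2 : ℝ) : ℂ) =
      ∑ σ : Equiv.Perm (Fin N), ((∫ x, ‖Dφ (σ i) x‖ ^ 2 : ℝ) : ℂ) := by
    rw [integral_gdet _ hfm]
    refine Finset.sum_congr rfl fun σ _ => ?_
    rw [Finset.sum_eq_single σ]
    · rw [star_sign_mul_sign, one_mul, Finset.prod_eq_single i]
      · rw [← integral_complex_ofReal]
        refine integral_congr_ae (Eventually.of_forall fun x => ?_)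
        simp only [hf, if_true]
        rw [Complex.star_def, ← Complex.normSq_eq_conj_mul_self, Complex.normSq_eq_norm_sq]
      · intro j _ hj
        simp only [hf, if_neg hj]
        rw [hφ.2, if_pos rfl]
      · simp
    · intro τ _ hτ
      obtain ⟨j, hji, hj⟩ : ∃ j, j ≠ i ∧ σ j ≠ τ j := by
        by_contra hcon
        push Not at hcon
        exact hτ (perm_eq_of_eq_off i fun j hj => (hcon j hj).symm)
      rw [Finset.prod_eq_zero (Finset.mem_univ j), mul_zero]
      simp only [hf, if_neg hji]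
      rw [hφ.2, if_neg hj]
    · simp
  have h4 := sum_perm_apply (fun k => ((∫ x, ‖Dφ k x‖ ^ 2 : ℝ) : ℂ)) i
  rw [← h2] at h4
  have h5 : (N : ℝ) * ∫ y, ‖gdet f y‖ ^ 2 = (N.factorial : ℝ) * ∑ k, ∫ x, ‖Dφ k x‖ ^ 2 := by
    exact_mod_cast h4
  rw [h1]
  have h6 : (N.factorial : ℝ) ≠ 0 := by positivity
  field_simp
  linarith

theorem gdet_eq_zero {X : Type*} {N : ℕ} (f : Fin N → Fin N → X → ℂ) (A : Set X)
    (T : Finset (Fin N))
    (hT : ∀ k ∈ T, ∀ j, ∀ x ∉ A, f k j x = 0) (hT' : ∀ k ∉ T, ∀ j, ∀ x ∈ A, f k j x = 0)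
    (x : Fin N → X) (hx : {j | x j ∈ A}.ncard ≠ T.card) : gdet f x = 0 := by
  rw [gdet_eq_comb]
  unfold comb
  refine Finset.sum_eq_zero fun σ _ => ?_
  by_contra hne
  have hprod : ∏ j, f (σ j) j (x j) ≠ 0 := fun h => hne (by rw [h, mul_zero])
  rw [Finset.prod_ne_zero_iff] at hprod
  apply hx
  have hset : {j | x j ∈ A} = ((T.map σ.symm.toEmbedding : Finset (Fin N)) : Set (Fin N)) := by
    ext j
    simp only [Set.mem_ofPred_eq, Finset.coe_map, Equiv.coe_toEmbedding, Set.mem_image,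
      Finset.mem_coe]
    constructor
    · intro hj
      refine ⟨σ j, ?_, by simp⟩
      by_contra hjT
      exact hprod j (Finset.mem_univ j) (hT' _ hjT j _ hj)
    · rintro ⟨k, hk, rfl⟩
      by_contra hjA
      refine hprod (σ.symm k) (Finset.mem_univ _) ?_
      rw [Equiv.apply_symm_apply]
      exact hT k hk _ _ hjA
  rw [hset, Set.ncard_coe_finset, Finset.card_map]

/-- D7. vanishing outside the right particle number -/
theorem slater_eq_zero {X : Type*} {N : ℕ} (φ : Fin N → X → ℂ) (A : Set X) (T : Finset (Fin N))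
    (hT : ∀ k ∈ T, ∀ x ∉ A, φ k x = 0) (hT' : ∀ k ∉ T, ∀ x ∈ A, φ k x = 0)
    (x : Fin N → X) (hx : {j | x j ∈ A}.ncard ≠ T.card) : slater φ x = 0 := by
  rw [slater_eq, gdet_eq_zero _ A T (fun k hk _ => hT k hk) (fun k hk _ => hT' k hk) x hx,
    mul_zero]

/-- D7'. -/
theorem slaterGrad_eq_zero {X : Type*} {N : ℕ} (φ Dφ : Fin N → X → ℂ) (A : Set X)
    (T : Finset (Fin N))
    (hT : ∀ k ∈ T, ∀ x ∉ A, φ k x = 0 ∧ Dφ k x = 0)
    (hT' : ∀ k ∉ T, ∀ x ∈ A, φ k x = 0 ∧ Dφ k x = 0) (i : Fin N)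
    (x : Fin N → X) (hx : {j | x j ∈ A}.ncard ≠ T.card) : slaterGrad φ Dφ i x = 0 := by
  rw [slaterGrad_eq, gdet_eq_zero _ A T ?_ ?_ x hx, mul_zero]
  · intro k hk j y hy
    by_cases h : j = i
    · simp [h, (hT k hk y hy).2]
    · simp [h, (hT k hk y hy).1]
  · intro k hk j y hy
    by_cases h : j = i
    · simp [h, (hT' k hk y hy).2]
    · simp [h, (hT' k hk y hy).1]

end det

end Pool.Agent.Helper59.LL
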