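import Pool.Agent.Helper59.TreeGameDim

open Set Filter MeasureTheory Topology Cardinal
open scoped ENNReal NNReal

namespace Pool.Agent.Helper59.TreeGame

attribute [local instance] cantorMetric

universe u

/-! ### Injective choice -/

theorem exists_injective_choice {ι α : Type u} (f : ι → Set α) (h : ∀ i, #ι ≤ #(f i)) :
    ∃ g : ι → α, Function.Injective g ∧ ∀ i, g i ∈ f i := by
  classical
  obtain ⟨_, hwf, hord⟩ := exists_ord_eq_type_lt ι
  have key : ∀ (i : ι) (g : ∀ j, j < i → α), ∃ a ∈ f i, ∀ j (hj : j < i), g j hj ≠ a := by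
    intro i g
    by_contra hcon
    push Not at hcon
    have h1 : f i ⊆ range (fun j : Iio i => g j.1 j.2) := by
      intro a ha
      obtain ⟨j, hj, hja⟩ := hcon a ha
      exact ⟨⟨j, hj⟩, hja⟩
    have h2 : #(f i) ≤ #(Iio i) := (mk_le_mk_of_subset h1).trans mk_range_le
    exact absurd (h2.trans_lt (mk_Iio_lt i hord)) (not_lt.2 (h i))
  choose G hG1 hG2 using key
  let g : ι → α := (wellFounded_lt (α := ι)).fix (fun i rec => G i rec)
  have hg : ∀ i, g i = G i (fun j _ => g j) := fun i =>
    (wellFounded_lt (α := ι)).fix_eq (fun i rec => G i rec) i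
  refine ⟨g, ?_, fun i => ?_⟩
  · intro i j hij
    by_contra hne
    rcases lt_or_gt_of_ne hne with hlt | hlt
    · have := hG2 j (fun j _ => g j) i hlt
      rw [← hg] at this
      exact this hij
    · have := hG2 i (fun j _ => g j) j hlt
      rw [← hg] at this
      exact this hij.symm
  · rw [hg]; exact hG1 _ _

/-! ### Limits of increasing sequences of finite sequences -/

theorem exists_limit (L : ℕ → List Bool) (h1 : ∀ n, L n <+: L (n + 1))
    (h2 : ∀ n, n ≤ (L n).length) : ∃ x : ℕ → Bool, ∀ n, x ∈ cyl (L n) := by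
  have hmono : ∀ m n, m ≤ n → L m <+: L n := by
    intro m n hmn
    induction hmn with
    | refl => exact List.prefix_rfl
    | step _ ih => exact ih.trans (h1 _)
  refine ⟨fun i => (L (i + 1)).getD i false, fun n => ?_⟩
  rw [mem_cyl]
  apply List.ext_getElem (by simp)
  intro i hi1 hi2
  have h3 : i < (L (i + 1)).length := h2 (i + 1)
  simp only [seg, List.getElem_map, List.getElem_range]
  rw [List.getD_eq_getElem _ _ h3]
  rcases le_total n (i + 1) with h | h
  · exact ((hmono _ _ h).getElem hi2).symm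
  · exact (hmono _ _ h).getElem h3

theorem seg_getElem (x : ℕ → Bool) {n i : ℕ} (h : i < (seg x n).length) : (seg x n)[i] = x i := by
  simp [seg]

theorem mem_cyl_append_singleton {x : ℕ → Bool} {p : List Bool} {b : Bool} :
    x ∈ cyl (p ++ [b]) ↔ x ∈ cyl p ∧ x p.length = b := by
  rw [mem_cyl, mem_cyl, List.length_append, List.length_singleton, seg_succ]
  constructor
  · intro h
    have := List.append_inj h (by simp)
    exact ⟨this.1, by simpa using this.2⟩
  · rintro ⟨h, rfl⟩
    rw [h]

theorem mem_cyl_of_le {x y : ℕ → Bool} {p : List Bool} {n : ℕ} (hx : x ∈ cyl p)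
    (hn : p.length ≤ n) (h : seg x n = seg y n) : y ∈ cyl p := by
  rw [mem_cyl_iff_take hn] at hx ⊢
  rw [← h]; exact hx

/-! ### Plays -/

theorem exists_move {T : Set (List Bool)} (hT : IsSubtree T) :
    ∃ mv : List Bool → Bool, ∀ p ∈ T, p ++ [mv p] ∈ T := by
  classical
  have : ∀ p : List Bool, ∃ b : Bool, p ∈ T → p ++ [b] ∈ T := by
    intro p
    by_cases hp : p ∈ T
    · obtain ⟨q, hq, hpq⟩ := hT.2 p hp
      obtain ⟨b, q', rfl⟩ := List.exists_cons_of_ne_nil hq
      refine ⟨b, fun _ => hT.1 _ q' ?_⟩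
      simpa using hpq
    · exact ⟨true, fun h => absurd h hp⟩
  choose mv hmv using this
  exact ⟨mv, hmv⟩

theorem exists_play {T : Set (List Bool)} (hT : IsSubtree T) (s : List Bool → Bool) {p : List Bool}
    (hp : p ∈ T) (hs : ∀ q ∈ T, p.length ≤ q.length → q ++ [s q] ∈ T) :
    ∃ x ∈ canopy T, x ∈ cyl p ∧ ∀ k, p.length ≤ k → x k = s (seg x k) := by
  let L : ℕ → List Bool := fun n => Nat.rec p (fun _ l => l ++ [s l]) n
  have hL0 : L 0 = p := rfl
  have hL1 : ∀ n, L (n + 1) = L n ++ [s (L n)] := fun n => rfl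
  have hlen : ∀ n, (L n).length = p.length + n := by
    intro n
    induction n with
    | zero => simp [hL0]
    | succ n ih => rw [hL1, List.length_append, ih]; simp [add_assoc]
  have hmem : ∀ n, L n ∈ T := by
    intro n
    induction n with
    | zero => exact hp
    | succ n ih => rw [hL1]; exact hs _ ih (by rw [hlen]; omega)
  obtain ⟨x, hx⟩ := exists_limit L (fun n => ⟨[s (L n)], (hL1 n).symm⟩) (fun n => by rw [hlen]; omega)
  refine ⟨x, ?_, hx 0, ?_⟩
  · intro n
    have h1 := hx n
    have h2 : seg x n = (L n).take n := by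
      rw [mem_cyl] at h1
      rw [← h1, take_seg]
      rw [hlen]; omega
    rw [h2]
    have h3 := hmem n
    rw [← List.take_append_drop n (L n)] at h3
    exact hT.1 _ _ h3
  · intro k hk
    have h1 := hx (k - p.length + 1)
    have h2 := hx (k - p.length)
    rw [hL1, mem_cyl_append_singleton] at h1
    have h3 : (L (k - p.length)).length = k := by rw [hlen]; omega
    rw [h3] at h1
    rw [mem_cyl, h3] at h2
    rw [h1.2, h2]

/-! ### The big part of a tree -/

/-- nodes above which the canopy has dimension larger than `1 / 2` -/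
def Big (T : Set (List Bool)) : Set (List Bool) := {p | (1 / 2 : ℝ≥0∞) < dimH (canopy T ∩ cyl p)}

theorem Big.mem {T : Set (List Bool)} {p : List Bool} (h : p ∈ Big T) : p ∈ T := by
  have : (canopy T ∩ cyl p).Nonempty := by
    by_contra he
    rw [Set.not_nonempty_iff_eq_empty] at he
    have h' : (1 / 2 : ℝ≥0∞) < dimH (canopy T ∩ cyl p) := h
    rw [he] at h'
    simp at h'
  obtain ⟨x, hx, hxp⟩ := this
  rw [mem_cyl] at hxp
  rw [← hxp]
  exact hx _

theorem Big.of_append {T : Set (List Bool)} {p q : List Bool} (h : p ++ q ∈ Big T) : p ∈ Big T := by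
  have h' : (1 / 2 : ℝ≥0∞) < dimH (canopy T ∩ cyl (p ++ q)) := h
  exact h'.trans_le (dimH_mono (inter_subset_inter_right _ (cyl_append_subset p q)))

theorem Big.child {T : Set (List Bool)} {p : List Bool} (h : p ∈ Big T) :
    ∃ b, p ++ [b] ∈ Big T := by
  have h1 : canopy T ∩ cyl p = (canopy T ∩ cyl (p ++ [true])) ∪ (canopy T ∩ cyl (p ++ [false])) := by
    ext x
    simp only [mem_inter_iff, mem_union, mem_cyl_append_singleton]
    rcases x p.length <;> simp
  have h' : (1 / 2 : ℝ≥0∞) < dimH (canopy T ∩ cyl p) := h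
  rw [h1, dimH_union, lt_max_iff] at h'
  rcases h' with h' | h'
  · exact ⟨true, h'⟩
  · exact ⟨false, h'⟩

/-- A set in which the digits at positions of one parity are determined by the previous digits has
dimension at most `1 / 2`. -/
theorem dimH_le_half_of_determined {S : Set (ℕ → Bool)} {n₀ e : ℕ} (he : e < 2)
    (h0 : ∀ x ∈ S, ∀ y ∈ S, seg x n₀ = seg y n₀)
    (h1 : ∀ x ∈ S, ∀ y ∈ S, ∀ i, n₀ ≤ i → i % 2 = e → seg x i = seg y i → x i = y i) :
    dimH S ≤ (1 / 2 : ℝ≥0∞) := by
  apply dimH_le_half (fun x m => x (2 * m + (1 - e)))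
  intro x hx y hy m hm
  rw [seg_eq_iff] at hm ⊢
  intro i
  induction i using Nat.strong_induction_on with
  | _ i ih =>
    intro hi
    by_cases hi0 : i < n₀
    · exact seg_eq_iff.1 (h0 x hx y hy) i hi0
    · by_cases hie : i % 2 = e
      · apply h1 x hx y hy i (not_lt.1 hi0) hie
        rw [seg_eq_iff]
        intro j hj
        exact ih j hj (by omega)
      · have := hm (i / 2) (by omega)
        have h2 : 2 * (i / 2) + (1 - e) = i := by omega
        simp only [h2] at this
        exact this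

theorem Big.exists_next {T : Set (List Bool)} {p : List Bool} (hp : p ∈ Big T) {e : ℕ}
    (he : e < 2) : ∃ q, p <+: q ∧ p.length < q.length ∧ q.length % 2 = e ∧
      ∀ b, q ++ [b] ∈ Big T := by
  obtain ⟨b₀, hb₀⟩ := Big.child hp
  set p₁ := p ++ [b₀] with hp₁
  by_contra hcon
  push Not at hcon
  have hcon' : ∀ q, p₁ <+: q → q.length % 2 = e → ∃ b, q ++ [b] ∉ Big T := by
    intro q hq hqe
    refine hcon q ((List.prefix_append p [b₀]).trans hq) ?_ hqe
    have := hq.length_le
    simp [hp₁] at this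
    omega
  -- the part staying in the big part
  set S : Set (ℕ → Bool) := {x | x ∈ cyl p₁ ∧ ∀ n, seg x n ∈ Big T} with hS
  have hSdim : dimH S ≤ (1 / 2 : ℝ≥0∞) := by
    apply dimH_le_half_of_determined (n₀ := p₁.length) he
    · intro x hx y hy
      have h1 := hx.1
      have h2 := hy.1
      rw [mem_cyl] at h1 h2
      rw [h1, h2]
    · intro x hx y hy i hi hie hxy
      by_contra hne
      obtain ⟨b, hb⟩ := hcon' (seg x i) (isPrefix_of_mem_cyl hx.1 (mem_cyl_seg x i) (by simpa using hi))
        (by simpa using hie)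
      have h3 := hx.2 (i + 1)
      have h4 := hy.2 (i + 1)
      rw [seg_succ] at h3 h4
      rw [← hxy] at h4
      have h5 : b = x i ∨ b = y i := by
        revert hne
        rcases x i <;> rcases y i <;> rcases b <;> simp
      rcases h5 with h5 | h5
      · rw [h5] at hb; exact hb h3
      · rw [h5] at hb; exact hb h4
  have hcover : canopy T ∩ cyl p₁ ⊆ S ∪ ⋃ q : {q : List Bool // q ∉ Big T}, (canopy T ∩ cyl q.1) := by
    rintro x ⟨hx, hxp⟩
    by_cases hxS : ∀ n, seg x n ∈ Big T
    · left; exact ⟨hxp, hxS⟩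
    · right
      push Not at hxS
      obtain ⟨n, hn⟩ := hxS
      exact mem_iUnion.2 ⟨⟨seg x n, hn⟩, hx, mem_cyl_seg x n⟩
  have h1 : dimH (canopy T ∩ cyl p₁) ≤ (1 / 2 : ℝ≥0∞) := by
    refine (dimH_mono hcover).trans ?_
    rw [dimH_union, dimH_iUnion]
    refine max_le hSdim (iSup_le fun q => ?_)
    exact not_lt.1 q.2
  exact absurd hb₀ (not_lt.2 h1)

/-! ### The embedded alternating binary tree -/

/-- An alternating scheme inside `T`. -/
structure Scheme (T : Set (List Bool)) where
  M : (ℕ → Bool) → ℕ → List Bool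
  len : ∀ z n, 2 * n ≤ (M z n).length
  par : ∀ z n, (M z n).length % 2 = n % 2
  step : ∀ z n, M z n ++ [z n] <+: M z (n + 1)
  loc : ∀ z z' n, (∀ i < n, z i = z' i) → M z n = M z' n
  child : ∀ z n b, M z n ++ [b] ∈ T
  mem : ∀ z n, M z n ∈ T

theorem exists_scheme {T : Set (List Bool)} (hT : (1 / 2 : ℝ≥0∞) < dimH (canopy T)) :
    Nonempty (Scheme T) := by
  classical
  have hnext : ∀ (p : List Bool) (e : ℕ), ∃ q, p ∈ Big T → e < 2 → p <+: q ∧
      p.length < q.length ∧ q.length % 2 = e ∧ ∀ b, q ++ [b] ∈ Big T := by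
    intro p e
    by_cases hp : p ∈ Big T ∧ e < 2
    · obtain ⟨q, hq⟩ := Big.exists_next hp.1 hp.2
      exact ⟨q, fun _ _ => hq⟩
    · exact ⟨[], fun h1 h2 => absurd ⟨h1, h2⟩ hp⟩
  choose next hnext using hnext
  have hroot : ([] : List Bool) ∈ Big T := by
    show (1 / 2 : ℝ≥0∞) < dimH (canopy T ∩ cyl [])
    simpa using hT
  let M : (ℕ → Bool) → ℕ → List Bool := fun z n =>
    Nat.rec (next [] 0) (fun n l => next (l ++ [z n]) ((n + 1) % 2)) n
  have hM0 : ∀ z, M z 0 = next [] 0 := fun z => rfl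
  have hM1 : ∀ z n, M z (n + 1) = next (M z n ++ [z n]) ((n + 1) % 2) := fun z n => rfl
  have hbig : ∀ z n b, M z n ++ [b] ∈ Big T := by
    intro z n
    induction n with
    | zero => exact (hnext [] 0 hroot (by norm_num)).2.2.2
    | succ n ih => exact (hnext _ _ (ih (z n)) (Nat.mod_lt _ (by norm_num))).2.2.2
  have hstep : ∀ z n, M z n ++ [z n] <+: M z (n + 1) ∧
      (M z n ++ [z n]).length < (M z (n + 1)).length ∧ (M z (n + 1)).length % 2 = (n + 1) % 2 := by
    intro z n
    obtain ⟨h1, h2, h3, -⟩ := hnext (M z n ++ [z n]) ((n + 1) % 2) (hbig z n (z n))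
      (Nat.mod_lt _ (by norm_num))
    exact ⟨h1, h2, h3⟩
  refine ⟨⟨M, ?_, ?_, fun z n => (hstep z n).1, ?_, fun z n b => Big.mem (hbig z n b),
    fun z n => Big.mem (Big.of_append (hbig z n true))⟩⟩
  · intro z n
    induction n with
    | zero => simp
    | succ n ih =>
      have := (hstep z n).2.1
      simp at this
      omega
  · intro z n
    rcases n with _ | n
    · exact (hnext [] 0 hroot (by norm_num)).2.2.1
    · exact (hstep z n).2.2
  · intro z z' n
    induction n with
    | zero => intro _; rfl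
    | succ n ih =>
      intro h
      rw [hM1, hM1, ih fun i hi => h i (by omega), h n (by omega)]

namespace Scheme

variable {T : Set (List Bool)} (S : Scheme T)

theorem exists_lim (z : ℕ → Bool) : ∃ x : ℕ → Bool, ∀ n, x ∈ cyl (S.M z n) :=
  exists_limit (S.M z) (fun n => (List.prefix_append _ _).trans (S.step z n))
    (fun n => by have := S.len z n; omega)

/-- the branch coded by `z` -/
noncomputable def Φ (z : ℕ → Bool) : ℕ → Bool := (S.exists_lim z).choose

theorem Φ_mem (z : ℕ → Bool) (n : ℕ) : S.Φ z ∈ cyl (S.M z n) := (S.exists_lim z).choose_spec n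

theorem Φ_apply (z : ℕ → Bool) (n : ℕ) : S.Φ z (S.M z n).length = z n := by
  have h1 := cyl_mono (S.step z n) (S.Φ_mem z (n + 1))
  exact (mem_cyl_append_singleton.1 h1).2

theorem seg_Φ (z : ℕ → Bool) (n : ℕ) : seg (S.Φ z) (S.M z n).length = S.M z n := S.Φ_mem z n

theorem Φ_mem_canopy (hT : IsSubtree T) (z : ℕ → Bool) : S.Φ z ∈ canopy T := by
  intro n
  have h1 : seg (S.Φ z) n = (S.M z n).take n := by
    have h2 := S.seg_Φ z n
    conv_rhs => rw [← h2]
    rw [take_seg]
    have := S.len z n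
    omega
  rw [h1]
  have h3 := S.mem z n
  rw [← List.take_append_drop n (S.M z n)] at h3
  exact hT.1 _ _ h3

/-- agreement of branches gives agreement of codes -/
theorem code_eq {z z' : ℕ → Bool} {m n : ℕ} (h : seg (S.Φ z) m = seg (S.Φ z') m)
    (hn : ∀ j < n, (S.M z j).length < m) : ∀ j < n, z j = z' j := by
  intro j
  induction j using Nat.strong_induction_on with
  | _ j ih =>
    intro hj
    have h1 : S.M z j = S.M z' j := S.loc z z' j fun i hi => ih i hi (by omega)
    have h2 := hn j hj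
    rw [← S.Φ_apply z j, ← S.Φ_apply z' j, ← h1]
    exact seg_eq_iff.1 h _ h2

theorem Φ_injective : Function.Injective S.Φ := by
  intro z z' h
  funext n
  refine S.code_eq (m := (S.M z n).length + (n + 1) + ∑ j ∈ Finset.range (n + 1),
    (S.M z j).length) (n := n + 1) (by rw [h]) ?_ n (by omega)
  intro j hj
  have := Finset.single_le_sum (f := fun j => (S.M z j).length) (fun _ _ => Nat.zero_le _)
    (Finset.mem_range.2 hj)
  omega

theorem range_dim : dimH (range S.Φ) ≤ (1 / 2 : ℝ≥0∞) := by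
  apply dimH_le_half (Function.invFun S.Φ)
  rintro _ ⟨z, rfl⟩ _ ⟨z', rfl⟩ m h
  have hz : ∀ z, Function.invFun S.Φ (S.Φ z) = z :=
    Function.leftInverse_invFun S.Φ_injective
  rw [hz, hz, seg_eq_iff] at h
  have h1 : S.M z m = S.M z' m := S.loc z z' m h
  have h2 := S.seg_Φ z m
  have h3 := S.seg_Φ z' m
  rw [← h1] at h3
  have h4 := S.len z m
  rw [← take_seg _ h4, ← take_seg (S.Φ z') h4, h2, h3]

/-- the nodes of the embedded tree -/
def nodes : Set (List Bool) := {p | ∃ z, S.Φ z ∈ cyl p}

theorem nil_mem : [] ∈ S.nodes := ⟨fun _ => true, by simp⟩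

theorem seg_mem_nodes (z : ℕ → Bool) (n : ℕ) : seg (S.Φ z) n ∈ S.nodes := ⟨z, mem_cyl_seg _ _⟩

theorem nodes_of_append {p q : List Bool} (h : p ++ q ∈ S.nodes) : p ∈ S.nodes := by
  obtain ⟨z, hz⟩ := h
  exact ⟨z, cyl_append_subset p q hz⟩

theorem isClosed_range : IsClosed (range S.Φ) := by
  have hcont : Continuous S.Φ := by
    have : LipschitzWith 1 S.Φ := by
      intro z z'
      rw [ENNReal.coe_one, one_mul]
      by_cases hzz : z = z'
      · rw [hzz]; simp
      have h4 : edist z z' = (2⁻¹ : ℝ≥0∞) ^ (PiNat.firstDiff (E := fun _ => Bool) z z') := by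
        rw [edist_dist]
        have : dist z z' = (1 / 2 : ℝ) ^ (PiNat.firstDiff (E := fun _ => Bool) z z') :=
          PiNat.dist_eq_of_ne (E := fun _ => Bool) hzz
        rw [this, ENNReal.ofReal_pow (by positivity), one_div,
          ENNReal.ofReal_inv_of_pos (by norm_num)]
        simp
      rw [h4, edist_le_iff]
      set n := PiNat.firstDiff (E := fun _ => Bool) z z' with hn
      have h5 : edist z z' ≤ (2⁻¹ : ℝ≥0∞) ^ n := h4.le
      rw [edist_le_iff, seg_eq_iff] at h5
      have h1 : S.M z n = S.M z' n := S.loc z z' n h5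
      have h2 := S.seg_Φ z n
      have h3 := S.seg_Φ z' n
      rw [← h1] at h3
      have h6 : n ≤ (S.M z n).length := by have := S.len z n; omega
      rw [← take_seg _ h6, ← take_seg (S.Φ z') h6, h2, h3]
    exact this.continuous
  exact (isCompact_range hcont).isClosed

theorem mem_range_of_nodes {x : ℕ → Bool} (h : ∀ n, seg x n ∈ S.nodes) : x ∈ range S.Φ := by
  rw [← S.isClosed_range.closure_eq, EMetric.mem_closure_iff]
  intro ε hε
  obtain ⟨n, hn⟩ : ∃ n : ℕ, (2⁻¹ : ℝ≥0∞) ^ n < ε := by
    have h0 : Tendsto (fun n : ℕ => (2⁻¹ : ℝ≥0∞) ^ n) atTop (𝓝 0) :=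
      ENNReal.tendsto_pow_atTop_nhds_zero_of_lt_one (by simp)
    exact (h0.eventually (gt_mem_nhds hε)).exists
  obtain ⟨z, hz⟩ := h n
  refine ⟨S.Φ z, ⟨z, rfl⟩, lt_of_le_of_lt ?_ hn⟩
  rw [edist_le_iff]
  rw [mem_cyl] at hz
  simpa using hz.symm

/-- At a position which is not a branching node, only one child belongs to the tree. -/
theorem single_child {z : ℕ → Bool} {i : ℕ} {b : Bool} (hi : ∀ n, (S.M z n).length ≠ i)
    (hb : seg (S.Φ z) i ++ [b] ∈ S.nodes) : S.Φ z i = b := by
  classical
  obtain ⟨z', hz'⟩ := hb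
  rw [mem_cyl_append_singleton, mem_cyl, seg_length] at hz'
  have hex : ∃ n, i < (S.M z n).length := ⟨i + 1, by have := S.len z (i + 1); omega⟩
  set n := Nat.find hex with hn
  have hn1 : i < (S.M z n).length := Nat.find_spec hex
  have hn2 : ∀ j < n, (S.M z j).length < i := by
    intro j hj
    have h1 := Nat.find_min hex hj
    have h2 := hi j
    omega
  have h3 := S.code_eq hz'.1.symm hn2
  have h4 : S.M z n = S.M z' n := S.loc z z' n h3
  have h5 := S.seg_Φ z n
  have h6 := S.seg_Φ z' n
  rw [← h4] at h6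
  rw [← hz'.2]
  exact seg_eq_iff.1 (h5.trans h6.symm) i hn1

end Scheme

theorem exists_fix (F : (ℕ → Bool) → ℕ → Bool)
    (hF : ∀ z z' n, (∀ i < n, z i = z' i) → F z n = F z' n) : ∃ z, ∀ n, z n = F z n := by
  let a : ℕ → (ℕ → Bool) := fun n =>
    Nat.rec (fun _ => false) (fun n f => Function.update f n (F f n)) n
  have ha : ∀ n, a (n + 1) = Function.update (a n) n (F (a n) n) := fun n => rfl
  have h1 : ∀ i n, i < n → a n i = a (i + 1) i := by
    intro i n hin
    induction hin with
    | refl => rfl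
    | @step m hm ih =>
      rw [ha, Function.update_of_ne (by have : i + 1 ≤ m := hm; omega), ih]
  refine ⟨fun n => a (n + 1) n, fun n => ?_⟩
  simp only
  rw [ha, Function.update_self]
  apply hF
  intro i hi
  exact h1 i n hi

namespace Scheme

variable {T : Set (List Bool)} (S : Scheme T)

/-- Following a strategy which never leaves the tree. -/
theorem exists_follow {e : ℕ} (he : e < 2) (s : List Bool → Bool)
    (hs : ∀ z i, i % 2 = e → (∀ k < i, k % 2 = e → S.Φ z k = s (seg (S.Φ z) k)) →
      seg (S.Φ z) i ++ [s (seg (S.Φ z) i)] ∈ S.nodes) (c : ℕ → Bool) :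
    ∃ z, (∀ k, z (2 * k + (1 - e)) = c k) ∧ ∀ i, i % 2 = e → S.Φ z i = s (seg (S.Φ z) i) := by
  classical
  obtain ⟨z, hz⟩ := exists_fix (fun z n => if n % 2 = e then s (S.M z n) else c (n / 2)) (by
    intro z z' n h
    rw [S.loc z z' n h])
  refine ⟨z, ?_, ?_⟩
  · intro k
    rw [hz, if_neg (by omega)]
    congr 1
    omega
  · intro i
    induction i using Nat.strong_induction_on with
    | _ i ih =>
      intro hie
      by_cases hi : ∃ n, (S.M z n).length = i
      · obtain ⟨n, rfl⟩ := hi
        rw [S.Φ_apply, S.seg_Φ, hz, if_pos]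
        rw [← S.par z n]; exact hie
      · push Not at hi
        exact S.single_child hi (hs z i hie fun k hk hke => ih k hk hke)

end Scheme

end Pool.Agent.Helper59.TreeGame
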