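import Mathlib

open Set
open scoped ENNReal NNReal

namespace Pool.Agent.Helper59.TreeGame

/-- A subtree of the full binary tree: a set of finite binary sequences closed under taking
initial segments, in which every sequence has a proper extension. -/
def IsSubtree (T : Set (List Bool)) : Prop :=
  (∀ p q : List Bool, p ++ q ∈ T → p ∈ T) ∧
    ∀ p ∈ T, ∃ q : List Bool, q ≠ [] ∧ p ++ q ∈ T

/-- The finite sequence formed by the first `n` entries of `x`. -/
def seg (x : ℕ → Bool) (n : ℕ) : List Bool := (List.range n).map x

/-- The canopy of `T`: the infinite binary sequences all of whose initial segments lie in `T`. -/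
def canopy (T : Set (List Bool)) : Set (ℕ → Bool) := {x | ∀ n, seg x n ∈ T}

/-- Player I (who moves at even stages) has a winning strategy in the game `(T, W)`: a map `σ`
giving a legal move at each position of even length of `T`, such that each infinite play in which
Player I follows `σ` lies in `W`. -/
def WinsI (T : Set (List Bool)) (W : Set (ℕ → Bool)) : Prop :=
  ∃ σ : List Bool → Bool, (∀ p ∈ T, Even p.length → p ++ [σ p] ∈ T) ∧
    ∀ x ∈ canopy T, (∀ n, Even n → x n = σ (seg x n)) → x ∈ W

/-- Player II (who moves at odd stages) has a winning strategy in the game `(T, W)`. -/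
def WinsII (T : Set (List Bool)) (W : Set (ℕ → Bool)) : Prop :=
  ∃ τ : List Bool → Bool, (∀ p ∈ T, Odd p.length → p ++ [τ p] ∈ T) ∧
    ∀ x ∈ canopy T, (∀ n, Odd n → x n = τ (seg x n)) → x ∉ W

/-- The set `W` is determined in `(T, W)` if one of the players has a winning strategy. -/
def Determined (T : Set (List Bool)) (W : Set (ℕ → Bool)) : Prop :=
  WinsI T W ∨ WinsII T W

/-- The metric `d₂(x, y) = 2 ^ (- min {n : x n ≠ y n})` on the space of infinite binary
sequences (Mathlib's `PiNat.metricSpace`). -/
@[reducible] noncomputable def cantorMetric : MetricSpace (ℕ → Bool) :=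
  PiNat.metricSpace (E := fun _ => Bool)

/-- Hausdorff dimension (Mathlib's `dimH`) with respect to the metric `cantorMetric`. -/
noncomputable def hdim (A : Set (ℕ → Bool)) : ℝ≥0∞ :=
  @dimH (ℕ → Bool) cantorMetric.toEMetricSpace A

end Pool.Agent.Helper59.TreeGame
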