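import Pool.Agent.Helper59.TreeGameDefs

open Set Filter MeasureTheory Topology
open scoped ENNReal NNReal

namespace Pool.Agent.Helper59.TreeGame

attribute [local instance] cantorMetric

/-! ### Initial segments and cylinders -/

@[simp] theorem seg_length (x : ℕ → Bool) (n : ℕ) : (seg x n).length = n := by simp [seg]

@[simp] theorem seg_zero (x : ℕ → Bool) : seg x 0 = [] := by simp [seg]

theorem seg_succ (x : ℕ → Bool) (n : ℕ) : seg x (n + 1) = seg x n ++ [x n] := by
  simp [seg, List.range_succ]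

theorem seg_eq_iff {x y : ℕ → Bool} {n : ℕ} : seg x n = seg y n ↔ ∀ i < n, x i = y i := by
  simp [seg]

theorem take_seg (x : ℕ → Bool) {m n : ℕ} (h : m ≤ n) : (seg x n).take m = seg x m := by
  rw [seg, seg, ← List.map_take, List.take_range, min_eq_left h]

/-- cylinder of all infinite sequences extending `p` -/
def cyl (p : List Bool) : Set (ℕ → Bool) := {x | seg x p.length = p}

theorem mem_cyl {x : ℕ → Bool} {p : List Bool} : x ∈ cyl p ↔ seg x p.length = p := Iff.rfl

@[simp] theorem cyl_nil : cyl [] = univ := by ext x; simp [mem_cyl]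

theorem mem_cyl_seg (x : ℕ → Bool) (n : ℕ) : x ∈ cyl (seg x n) := by simp [mem_cyl]

theorem mem_cyl_iff_take {x : ℕ → Bool} {p : List Bool} {n : ℕ} (h : p.length ≤ n) :
    x ∈ cyl p ↔ (seg x n).take p.length = p := by
  rw [take_seg x h]; rfl

theorem cyl_append_subset (p q : List Bool) : cyl (p ++ q) ⊆ cyl p := by
  intro x hx
  rw [mem_cyl] at hx
  rw [mem_cyl_iff_take (n := (p ++ q).length) (by simp), hx]
  simp

theorem cyl_mono {p q : List Bool} (h : p <+: q) : cyl q ⊆ cyl p := by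
  obtain ⟨r, rfl⟩ := h
  exact cyl_append_subset p r

theorem isPrefix_of_mem_cyl {x : ℕ → Bool} {p q : List Bool} (hp : x ∈ cyl p) (hq : x ∈ cyl q)
    (h : p.length ≤ q.length) : p <+: q := by
  rw [mem_cyl] at hp hq
  rw [← hp, ← hq, ← take_seg x h]
  exact List.take_prefix _ _

theorem cyl_eq_cylinder (x : ℕ → Bool) (n : ℕ) :
    cyl (seg x n) = PiNat.cylinder (E := fun _ => Bool) x n := by
  ext y
  simp [mem_cyl, seg_eq_iff, PiNat.mem_cylinder_iff]

theorem isOpen_cyl (p : List Bool) : IsOpen (cyl p) := by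
  rcases (cyl p).eq_empty_or_nonempty with h | ⟨x, hx⟩
  · rw [h]; exact isOpen_empty
  · have : cyl p = PiNat.cylinder (E := fun _ => Bool) x p.length := by
      rw [← cyl_eq_cylinder, (mem_cyl.1 hx)]
    rw [this]
    exact PiNat.isOpen_cylinder (fun _ => Bool) x _

theorem cyl_inter_of_ne {p q : List Bool} (hl : p.length = q.length) (hne : p ≠ q) :
    Disjoint (cyl p) (cyl q) := by
  rw [Set.disjoint_left]
  intro x hp hq
  rw [mem_cyl] at hp hq
  apply hne
  rw [← hp, ← hq, hl]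

theorem isClosed_cyl (p : List Bool) : IsClosed (cyl p) := by
  have : cyl p = (⋃ q ∈ {q : List Bool | q.length = p.length ∧ q ≠ p}, cyl q)ᶜ := by
    ext x
    simp only [mem_compl_iff, mem_iUnion, not_exists, mem_ofPred_eq]
    constructor
    · rintro hx q ⟨hl, hne⟩ hq
      exact (Set.disjoint_left.1 (cyl_inter_of_ne hl hne)) hq hx
    · intro h
      by_contra hx
      exact h (seg x p.length) ⟨by simp, fun h' => hx (mem_cyl.2 h')⟩ (mem_cyl_seg x _)
  rw [this]
  apply IsOpen.isClosed_compl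
  exact isOpen_biUnion fun q _ => isOpen_cyl q

theorem edist_le_iff {x y : ℕ → Bool} {n : ℕ} :
    edist x y ≤ (2⁻¹ : ℝ≥0∞) ^ n ↔ seg x n = seg y n := by
  rw [seg_eq_iff]
  have h1 := PiNat.mem_cylinder_iff_dist_le (E := fun _ => Bool) (x := y) (y := x) (n := n)
  rw [PiNat.mem_cylinder_iff] at h1
  rw [h1, edist_dist]
  have : ((2⁻¹ : ℝ≥0∞) ^ n) = ENNReal.ofReal ((1 / 2 : ℝ) ^ n) := by
    rw [ENNReal.ofReal_pow (by positivity), one_div,
      ENNReal.ofReal_inv_of_pos (by norm_num)]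
    simp
  rw [this, ENNReal.ofReal_le_ofReal_iff (by positivity)]

theorem ediam_cyl_le (p : List Bool) : Metric.ediam (cyl p) ≤ (2⁻¹ : ℝ≥0∞) ^ p.length := by
  apply Metric.ediam_le
  intro x hx y hy
  rw [edist_le_iff]
  rw [mem_cyl] at hx hy
  rw [hx, hy]

theorem exists_cyl_of_set {t : Set (ℕ → Bool)} (ht : t.Nonempty) (N : ℕ) :
    ∃ p, t ⊆ cyl p ∧ (2⁻¹ : ℝ≥0∞) ^ p.length ≤ max (Metric.ediam t) ((2⁻¹ : ℝ≥0∞) ^ N) := by
  obtain ⟨x, hx⟩ := ht
  by_cases h : t ⊆ cyl (seg x N)
  · refine ⟨seg x N, h, ?_⟩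
    simp
  · -- take the largest `n ≤ N` with `t ⊆ cyl (seg x n)`
    classical
    have hex : ∃ n, ¬ t ⊆ cyl (seg x n) := ⟨N, h⟩
    set n := Nat.find hex with hn
    have hn1 : ¬ t ⊆ cyl (seg x n) := Nat.find_spec hex
    have hn0 : n ≠ 0 := by
      intro h0
      rw [h0] at hn1
      exact hn1 (by simp)
    obtain ⟨m, hm⟩ := Nat.exists_eq_succ_of_ne_zero hn0
    have hm1 : t ⊆ cyl (seg x m) := by
      by_contra hc
      have := Nat.find_min' hex hc
      omega
    refine ⟨seg x m, hm1, ?_⟩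
    refine le_max_of_le_left ?_
    obtain ⟨y, hy, hy'⟩ := Set.not_subset.1 hn1
    have h2 : ¬ edist x y ≤ (2⁻¹ : ℝ≥0∞) ^ n := by
      rw [edist_le_iff]
      intro hc
      exact hy' (by rw [mem_cyl]; simp [hc])
    have hxy : x ≠ y := by
      rintro rfl
      exact h2 (by simp)
    have h3 : edist x y ≤ Metric.ediam t := Metric.edist_le_ediam_of_mem hx hy
    refine le_trans ?_ h3
    -- the distance is an exact power
    have h4 : edist x y = (2⁻¹ : ℝ≥0∞) ^ (PiNat.firstDiff (E := fun _ => Bool) x y) := by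
      rw [edist_dist]
      have : dist x y = (1 / 2 : ℝ) ^ (PiNat.firstDiff (E := fun _ => Bool) x y) :=
        PiNat.dist_eq_of_ne (E := fun _ => Bool) hxy
      rw [this, ENNReal.ofReal_pow (by positivity), one_div,
        ENNReal.ofReal_inv_of_pos (by norm_num)]
      simp
    rw [h4] at h2 ⊢
    have h5 : PiNat.firstDiff (E := fun _ => Bool) x y < n := by
      by_contra hc
      exact h2 (pow_le_pow_right_of_le_one' (by simp) (not_lt.1 hc))
    have h6 : PiNat.firstDiff (E := fun _ => Bool) x y ≤ (seg x m).length := by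
      simp; omega
    exact pow_le_pow_right_of_le_one' (by simp) h6

/-! ### Costs of finite covers -/

/-- cost of a finite family of cylinders -/
noncomputable def cost (r : ℝ) (F : Finset (List Bool)) : ℝ := ∑ p ∈ F, r ^ p.length

/-- `F` covers `K` -/
def Cov (K : Set (ℕ → Bool)) (F : Finset (List Bool)) : Prop := K ⊆ ⋃ p ∈ F, cyl p

theorem cost_nonneg {r : ℝ} (hr : 0 < r) (F : Finset (List Bool)) : 0 ≤ cost r F :=
  Finset.sum_nonneg fun _ _ => by positivity

theorem cost_union_le {r : ℝ} (hr : 0 < r) (F G : Finset (List Bool)) :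
    cost r (F ∪ G) ≤ cost r F + cost r G := by
  classical
  unfold cost
  rw [← Finset.sum_union_inter]
  have : 0 ≤ ∑ p ∈ F ∩ G, r ^ p.length := Finset.sum_nonneg fun _ _ => by positivity
  linarith

theorem cost_biUnion_le {ι : Type*} [DecidableEq ι] {r : ℝ} (hr : 0 < r) (F : Finset ι)
    (G : ι → Finset (List Bool)) :
    cost r (F.biUnion G) ≤ ∑ p ∈ F, cost r (G p) := by
  classical
  induction F using Finset.induction_on with
  | empty => simp [cost]
  | insert a s ha ih =>
    rw [Finset.biUnion_insert, Finset.sum_insert ha]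
    exact (cost_union_le hr _ _).trans (by linarith)

theorem Cov.mono {K K' : Set (ℕ → Bool)} {F : Finset (List Bool)} (h : Cov K F) (hK : K' ⊆ K) :
    Cov K' F := hK.trans h

theorem cov_iff {K : Set (ℕ → Bool)} {F : Finset (List Bool)} :
    Cov K F ↔ ∀ x ∈ K, ∃ p ∈ F, x ∈ cyl p := by
  simp [Cov, Set.subset_def]

theorem isCompact_of_isClosed {K : Set (ℕ → Bool)} (h : IsClosed K) : IsCompact K :=
  h.isCompact

/-- the minimal closed subset with given content -/
theorem exists_minimal {K₀ : Set (ℕ → Bool)} (hK₀ : IsClosed K₀) {r c : ℝ}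
    (hc : ∀ F, Cov K₀ F → c ≤ cost r F) :
    ∃ K, Minimal (fun K : Set (ℕ → Bool) =>
      IsClosed K ∧ K ⊆ K₀ ∧ ∀ F, Cov K F → c ≤ cost r F) K := by
  have := zorn_superset {K : Set (ℕ → Bool) | IsClosed K ∧ K ⊆ K₀ ∧ ∀ F, Cov K F → c ≤ cost r F} ?_
  · exact this
  intro C hC hchain
  rcases C.eq_empty_or_nonempty with rfl | hne
  · exact ⟨K₀, ⟨hK₀, Subset.rfl, hc⟩, by simp⟩
  · refine ⟨⋂₀ C, ⟨isClosed_sInter fun s hs => (hC hs).1, ?_, ?_⟩, fun s hs => sInter_subset_of_mem hs⟩
    · obtain ⟨s, hs⟩ := hne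
      exact (sInter_subset_of_mem hs).trans (hC hs).2.1
    · intro F hF
      -- some member of the chain is covered by F
      have hU : IsOpen (⋃ p ∈ F, cyl p) := isOpen_biUnion fun p _ => isOpen_cyl p
      have : ∃ s ∈ C, s ⊆ ⋃ p ∈ F, cyl p := by
        by_contra hcon
        push Not at hcon
        have : Nonempty C := hne.to_subtype
        have h1 : (⋂ s : C, ((s : Set (ℕ → Bool)) ∩ (⋃ p ∈ F, cyl p)ᶜ)).Nonempty := by
          apply IsCompact.nonempty_iInter_of_directed_nonempty_isCompact_isClosed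
          · intro a b
            rcases hchain.total a.2 b.2 with hab | hab
            · exact ⟨a, Subset.rfl, inter_subset_inter_left _ hab⟩
            · exact ⟨b, inter_subset_inter_left _ hab, Subset.rfl⟩
          · intro s
            obtain ⟨x, hx, hx'⟩ := Set.not_subset.1 (hcon s s.2)
            exact ⟨x, hx, hx'⟩
          · intro s
            exact ((hC s.2).1.inter hU.isClosed_compl).isCompact
          · intro s
            exact (hC s.2).1.inter hU.isClosed_compl
        obtain ⟨x, hx⟩ := h1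
        rw [mem_iInter] at hx
        have h2 : x ∈ ⋂₀ C := by
          intro s hs
          exact (hx ⟨s, hs⟩).1
        obtain ⟨s, hs⟩ := hne
        exact (hx ⟨s, hs⟩).2 (hF h2)
      obtain ⟨s, hs, hsF⟩ := this
      exact (hC hs).2.2 F hsF

/-- the local refinement property of a minimal set -/
theorem minimal_refine {K₀ K : Set (ℕ → Bool)} {r c : ℝ} (hr0 : 0 < r) (hr1 : r < 1)
    (hK : Minimal (fun K : Set (ℕ → Bool) =>
      IsClosed K ∧ K ⊆ K₀ ∧ ∀ F, Cov K F → c ≤ cost r F) K) (p : List Bool) {ε : ℝ} (hε : 0 < ε) :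
    ∃ F : Finset (List Bool), (∀ q ∈ F, p.length < q.length) ∧ Cov (K ∩ cyl p) F ∧
      cost r F ≤ r ^ p.length + ε := by
  classical
  by_contra hcon
  push Not at hcon
  -- `K` meets `cyl p`
  have hne : (K ∩ cyl p).Nonempty := by
    by_contra he
    rw [Set.not_nonempty_iff_eq_empty] at he
    have := hcon ∅ (by simp) (by simp [Cov, he])
    simp [cost] at this
    have h1 : 0 < r ^ p.length := by positivity
    linarith
  obtain ⟨x, hxK, hxp⟩ := hne
  -- a deep node
  obtain ⟨N, hN⟩ : ∃ N, r ^ N < ε := exists_pow_lt_of_lt_one hε hr1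
  set M := max N (p.length + 1) with hM
  have hMN : r ^ M < ε := lt_of_le_of_lt (pow_le_pow_of_le_one hr0.le hr1.le (le_max_left _ _)) hN
  have hMp : p.length < M := lt_of_lt_of_le (Nat.lt_succ_self _) (le_max_right _ _)
  set t := seg x M with ht
  have htl : t.length = M := by simp [ht]
  have hpt : p <+: t := isPrefix_of_mem_cyl hxp (mem_cyl_seg x M) (by rw [htl]; omega)
  -- remove it
  have hrem : ¬ (IsClosed (K \ cyl t) ∧ K \ cyl t ⊆ K₀ ∧ ∀ F, Cov (K \ cyl t) F → c ≤ cost r F) := by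
    intro h
    have := hK.2 h sdiff_subset
    exact (this hxK).2 (mem_cyl_seg x M)
  have hcl : IsClosed (K \ cyl t) := hK.1.1.sdiff (isOpen_cyl t)
  have : ∃ F, Cov (K \ cyl t) F ∧ cost r F < c := by
    by_contra h
    push Not at h
    exact hrem ⟨hcl, sdiff_subset.trans hK.1.2.1, h⟩
  obtain ⟨F, hF, hFc⟩ := this
  -- no element of F is an initial segment of t
  have hFt : ∀ q ∈ F, ¬ q <+: t := by
    intro q hq hqt
    have : Cov K F := by
      rw [cov_iff]
      intro y hy
      by_cases hyt : y ∈ cyl t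
      · exact ⟨q, hq, cyl_mono hqt hyt⟩
      · exact cov_iff.1 hF y ⟨hy, hyt⟩
    exact absurd (hK.1.2.2 F this) (not_le.2 hFc)
  set F₁ := F.filter (fun q => p <+: q) with hF₁
  have hF₁' : ∀ q ∈ F₁, p.length < q.length := by
    intro q hq
    rw [hF₁, Finset.mem_filter] at hq
    have h1 := hq.2.length_le
    rcases h1.lt_or_eq with h2 | h2
    · exact h2
    · exfalso
      have : p = q := hq.2.eq_of_length h2
      exact hFt q hq.1 (this ▸ hpt)
  have hcov1 : Cov (K ∩ cyl p) (insert t F₁) := by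
    rw [cov_iff]
    rintro y ⟨hyK, hyp⟩
    by_cases hyt : y ∈ cyl t
    · exact ⟨t, by simp, hyt⟩
    · obtain ⟨q, hq, hyq⟩ := cov_iff.1 hF y ⟨hyK, hyt⟩
      refine ⟨q, ?_, hyq⟩
      rw [Finset.mem_insert]
      right
      rw [hF₁, Finset.mem_filter]
      refine ⟨hq, ?_⟩
      rcases le_total p.length q.length with h | h
      · exact isPrefix_of_mem_cyl hyp hyq h
      · exfalso
        have h3 : q <+: p := isPrefix_of_mem_cyl hyq hyp h
        exact hFt q hq (h3.trans hpt)
  have hcost1 : r ^ p.length + ε < cost r (insert t F₁) := by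
    apply hcon _ _ hcov1
    intro q hq
    rw [Finset.mem_insert] at hq
    rcases hq with rfl | hq
    · omega
    · exact hF₁' q hq
  have hcost2 : cost r (insert t F₁) ≤ r ^ M + cost r F₁ := by
    have h4 : t ∉ F₁ := by
      intro h5
      rw [hF₁, Finset.mem_filter] at h5
      exact hFt t h5.1 List.prefix_rfl
    rw [cost, Finset.sum_insert h4, htl]
    rfl
  have hcost3 : r ^ p.length < cost r F₁ := by linarith
  -- replace F₁ by p
  have hcov2 : Cov K (insert p (F \ F₁)) := by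
    rw [cov_iff]
    intro y hyK
    by_cases hyt : y ∈ cyl t
    · exact ⟨p, by simp, cyl_mono hpt hyt⟩
    · obtain ⟨q, hq, hyq⟩ := cov_iff.1 hF y ⟨hyK, hyt⟩
      by_cases hq1 : q ∈ F₁
      · refine ⟨p, by simp, ?_⟩
        rw [hF₁, Finset.mem_filter] at hq1
        exact cyl_mono hq1.2 hyq
      · exact ⟨q, by simp [hq, hq1], hyq⟩
  have hcost4 := hK.1.2.2 _ hcov2
  have hcost5 : cost r (insert p (F \ F₁)) ≤ r ^ p.length + cost r (F \ F₁) := by
    by_cases hp : p ∈ F \ F₁
    · rw [Finset.insert_eq_of_mem hp]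
      have : 0 < r ^ p.length := by positivity
      linarith
    · rw [cost, Finset.sum_insert hp]
      rfl
  have hcost6 : cost r (F \ F₁) + cost r F₁ = cost r F := by
    rw [cost, cost, cost]
    exact Finset.sum_sdiff (Finset.filter_subset _ _)
  linarith

/-- a minimal set has arbitrarily fine covers of cost close to `c` -/
theorem minimal_fine {K₀ K : Set (ℕ → Bool)} {r c : ℝ} (hr0 : 0 < r) (hr1 : r < 1)
    (hinf : ∀ ε > 0, ∃ F, Cov K₀ F ∧ cost r F ≤ c + ε)
    (hK : Minimal (fun K : Set (ℕ → Bool) =>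
      IsClosed K ∧ K ⊆ K₀ ∧ ∀ F, Cov K F → c ≤ cost r F) K) (n : ℕ) :
    ∀ ε > 0, ∃ F : Finset (List Bool), (∀ q ∈ F, n ≤ q.length) ∧ Cov K F ∧
      cost r F ≤ c + ε := by
  classical
  induction n with
  | zero =>
    intro ε hε
    obtain ⟨F, hF, hFc⟩ := hinf ε hε
    exact ⟨F, by simp, hF.mono hK.1.2.1, hFc⟩
  | succ n ih =>
    intro ε hε
    obtain ⟨F, hFn, hF, hFc⟩ := ih (ε / 2) (by positivity)
    -- refine each element of F
    set m := F.card with hm
    have hpos : 0 < ε / (2 * (m + 1)) := by positivity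
    choose G hG1 hG2 hG3 using fun p : List Bool => minimal_refine hr0 hr1 hK p hpos
    refine ⟨F.biUnion G, ?_, ?_, ?_⟩
    · intro q hq
      rw [Finset.mem_biUnion] at hq
      obtain ⟨p, hp, hq⟩ := hq
      have := hG1 p q hq
      have := hFn p hp
      omega
    · rw [cov_iff]
      intro x hx
      obtain ⟨p, hp, hxp⟩ := cov_iff.1 hF x hx
      obtain ⟨q, hq, hxq⟩ := cov_iff.1 (hG2 p) x ⟨hx, hxp⟩
      exact ⟨q, Finset.mem_biUnion.2 ⟨p, hp, hq⟩, hxq⟩
    · calc cost r (F.biUnion G) ≤ ∑ p ∈ F, cost r (G p) := cost_biUnion_le hr0 F G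
        _ ≤ ∑ p ∈ F, (r ^ p.length + ε / (2 * (m + 1))) := Finset.sum_le_sum fun p _ => hG3 p
        _ = cost r F + m * (ε / (2 * (m + 1))) := by
            rw [Finset.sum_add_distrib]
            simp [cost, hm]
        _ ≤ cost r F + ε / 2 := by
            have : (m : ℝ) * (ε / (2 * (m + 1))) ≤ ε / 2 := by
              rw [mul_div_assoc', div_le_div_iff₀ (by positivity) (by positivity)]
              nlinarith
            linarith
        _ ≤ c + ε := by linarith

/-! ### Hausdorff dimension estimates -/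

/-- the contraction ratio attached to an exponent -/
noncomputable def ratio (s : ℝ≥0) : ℝ := (2 : ℝ) ^ (-(s : ℝ))

theorem ratio_pos (s : ℝ≥0) : 0 < ratio s := by unfold ratio; positivity

theorem ratio_lt_one {s : ℝ≥0} (hs : 0 < s) : ratio s < 1 := by
  unfold ratio
  apply Real.rpow_lt_one_of_one_lt_of_neg (by norm_num)
  simpa using hs

theorem pow_rpow_eq (s : ℝ≥0) (n : ℕ) :
    ((2⁻¹ : ℝ≥0∞) ^ n) ^ (s : ℝ) = ENNReal.ofReal (ratio s ^ n) := by
  have h2 : (2⁻¹ : ℝ≥0∞) = ENNReal.ofReal (2⁻¹ : ℝ) := by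
    rw [ENNReal.ofReal_inv_of_pos (by norm_num)]; simp
  rw [h2, ← ENNReal.ofReal_pow (by positivity), ENNReal.ofReal_rpow_of_pos (by positivity)]
  congr 1
  unfold ratio
  rw [← Real.rpow_natCast, ← Real.rpow_natCast, ← Real.rpow_mul (by positivity),
    ← Real.rpow_mul (by positivity), Real.inv_rpow (by positivity), ← Real.rpow_neg (by norm_num)]
  congr 1
  ring

theorem ediam_cyl_rpow_le (s : ℝ≥0) (p : List Bool) :
    Metric.ediam (cyl p) ^ (s : ℝ) ≤ ENNReal.ofReal (ratio s ^ p.length) := by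
  rw [← pow_rpow_eq]
  exact ENNReal.rpow_le_rpow (ediam_cyl_le p) s.2

theorem hausdorff_le_of_fine {S : Set (ℕ → Bool)} {s : ℝ≥0} {C : ℕ → ℝ}
    (h : ∀ n, ∃ F : Finset (List Bool), (∀ q ∈ F, n ≤ q.length) ∧ Cov S F ∧
      cost (ratio s) F ≤ C n) :
    μH[(s : ℝ)] S ≤ liminf (fun n => ENNReal.ofReal (C n)) atTop := by
  choose F hF1 hF2 hF3 using h
  have h0 : Tendsto (fun n : ℕ => (2⁻¹ : ℝ≥0∞) ^ n) atTop (𝓝 0) :=
    ENNReal.tendsto_pow_atTop_nhds_zero_of_lt_one (by simp)
  have := Measure.hausdorffMeasure_le_liminf_sum (X := ℕ → Bool) (β := ℕ)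
    (ι := fun n => {q // q ∈ F n}) (s : ℝ) S (l := atTop) (fun n => (2⁻¹ : ℝ≥0∞) ^ n) h0
    (fun n i => cyl i.1) ?_ ?_
  · refine this.trans ?_
    refine liminf_le_liminf (Eventually.of_forall fun n => ?_)
    calc ∑ i : {q // q ∈ F n}, Metric.ediam (cyl i.1) ^ (s : ℝ)
        ≤ ∑ i : {q // q ∈ F n}, ENNReal.ofReal (ratio s ^ i.1.length) :=
          Finset.sum_le_sum fun i _ => ediam_cyl_rpow_le s i.1
      _ = ∑ q ∈ F n, ENNReal.ofReal (ratio s ^ q.length) :=
          Finset.sum_coe_sort (F n) (fun q => ENNReal.ofReal (ratio s ^ q.length))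
      _ = ENNReal.ofReal (cost (ratio s) (F n)) := by
          rw [cost, ENNReal.ofReal_sum_of_nonneg]
          intro i _
          have := ratio_pos s
          positivity
      _ ≤ ENNReal.ofReal (C n) := ENNReal.ofReal_le_ofReal (hF3 n)
  · refine Eventually.of_forall fun n i => ?_
    refine (ediam_cyl_le _).trans ?_
    exact pow_le_pow_right_of_le_one' (by simp) (hF1 n i.1 i.2)
  · refine Eventually.of_forall fun n x hx => ?_
    obtain ⟨q, hq, hxq⟩ := cov_iff.1 (hF2 n) x hx
    exact mem_iUnion.2 ⟨⟨q, hq⟩, hxq⟩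

theorem dimH_le_of_fine {S : Set (ℕ → Bool)} {s : ℝ≥0} {C : ℝ}
    (h : ∀ n, ∃ F : Finset (List Bool), (∀ q ∈ F, n ≤ q.length) ∧ Cov S F ∧
      cost (ratio s) F ≤ C) : dimH S ≤ s := by
  apply dimH_le_of_hausdorffMeasure_ne_top
  have := hausdorff_le_of_fine (C := fun _ => C) h
  rw [liminf_const] at this
  exact ne_top_of_le_ne_top ENNReal.ofReal_ne_top this

theorem hausdorff_zero_of_small {S : Set (ℕ → Bool)} {s : ℝ≥0} (hs : 0 < s)
    (h : ∀ ε > 0, ∃ F : Finset (List Bool), Cov S F ∧ cost (ratio s) F ≤ ε) :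
    μH[(s : ℝ)] S = 0 := by
  have hr0 := ratio_pos s
  have hr1 := ratio_lt_one hs
  have h1 : ∀ n, ∃ F : Finset (List Bool), (∀ q ∈ F, n ≤ q.length) ∧ Cov S F ∧
      cost (ratio s) F ≤ ratio s ^ n := by
    intro n
    obtain ⟨F, hF1, hF2⟩ := h (ratio s ^ n) (by positivity)
    refine ⟨F, ?_, hF1, hF2⟩
    intro q hq
    have h2 : ratio s ^ q.length ≤ cost (ratio s) F := by
      unfold cost
      exact Finset.single_le_sum (f := fun p : List Bool => ratio s ^ p.length)
        (fun i _ => by positivity) hq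
    have h3 : ratio s ^ q.length ≤ ratio s ^ n := h2.trans hF2
    exact (pow_le_pow_iff_right_of_lt_one₀ hr0 hr1).1 h3
  have h2 := hausdorff_le_of_fine h1
  have h3 : Tendsto (fun n => ENNReal.ofReal (ratio s ^ n)) atTop (𝓝 0) := by
    have := tendsto_pow_atTop_nhds_zero_of_lt_one hr0.le hr1
    have h4 := ENNReal.tendsto_ofReal this
    simpa using h4
  rw [h3.liminf_eq] at h2
  exact le_antisymm h2 (by simp)

theorem le_dimH_of_content {K : Set (ℕ → Bool)} (hK : IsClosed K) {s : ℝ≥0} (hs : 0 < s) {c : ℝ}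
    (hc0 : 0 < c) (hc : ∀ F, Cov K F → c ≤ cost (ratio s) F) : (s : ℝ≥0∞) ≤ dimH K := by
  by_contra hlt
  rw [not_le] at hlt
  have hr0 := ratio_pos s
  have hr1 := ratio_lt_one hs
  have h0 : μH[(s : ℝ)] K = 0 := hausdorffMeasure_of_dimH_lt hlt
  rw [Measure.hausdorffMeasure_apply] at h0
  have h1 := le_of_eq h0
  rw [iSup₂_le_iff] at h1
  have h2 := h1 ⊤ (by simp)
  have h3 : (⨅ (t : ℕ → Set (ℕ → Bool)) (_ : K ⊆ ⋃ n, t n) (_ : ∀ n, Metric.ediam (t n) ≤ ⊤),
          ∑' n, ⨆ _ : (t n).Nonempty, Metric.ediam (t n) ^ (s : ℝ)) < ENNReal.ofReal (c / 4) :=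
    lt_of_le_of_lt h2 (by simpa using hc0)
  simp only [iInf_lt_iff] at h3
  obtain ⟨t, hKt, -, hsum⟩ := h3
  -- error terms
  have herr : ∀ n : ℕ, ∃ N : ℕ, ratio s ^ N < c / 4 * (1 / 2) ^ (n + 1) := fun n =>
    exists_pow_lt_of_lt_one (by positivity) hr1
  choose N hN using herr
  have hp : ∀ n : ℕ, ∃ p : List Bool, ((t n).Nonempty → t n ⊆ cyl p ∧
      (2⁻¹ : ℝ≥0∞) ^ p.length ≤ max (Metric.ediam (t n)) ((2⁻¹ : ℝ≥0∞) ^ (N n))) := by
    intro n
    by_cases hn : (t n).Nonempty
    · obtain ⟨p, hp⟩ := exists_cyl_of_set hn (N n)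
      exact ⟨p, fun _ => hp⟩
    · exact ⟨[], fun h => absurd h hn⟩
  choose p hp using hp
  have hcov : K ⊆ ⋃ n : {n // (t n).Nonempty}, cyl (p n) := by
    intro x hx
    obtain ⟨n, hn⟩ := mem_iUnion.1 (hKt hx)
    exact mem_iUnion.2 ⟨⟨n, ⟨x, hn⟩⟩, (hp n ⟨x, hn⟩).1 hn⟩
  obtain ⟨J, hJ⟩ := hK.isCompact.elim_finite_subcover (fun n : {n // (t n).Nonempty} => cyl (p n))
    (fun n => isOpen_cyl _) hcov
  classical
  have hF : Cov K (J.biUnion fun n : {n // (t n).Nonempty} => {p n}) := by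
    rw [cov_iff]
    intro x hx
    have := hJ hx
    simp only [mem_iUnion] at this
    obtain ⟨n, hn, hxn⟩ := this
    exact ⟨p n, Finset.mem_biUnion.2 ⟨n, hn, by simp⟩, hxn⟩
  have hcost := hc _ hF
  have h4 : ENNReal.ofReal (cost (ratio s)
      (J.biUnion fun n : {n // (t n).Nonempty} => {p n})) < ENNReal.ofReal c := by
    calc ENNReal.ofReal (cost (ratio s)
      (J.biUnion fun n : {n // (t n).Nonempty} => {p n}))
        ≤ ENNReal.ofReal (∑ n ∈ J, ratio s ^ (p n).length) := by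
          apply ENNReal.ofReal_le_ofReal
          refine (cost_biUnion_le hr0 _ _).trans (le_of_eq ?_)
          simp [cost]
      _ = ∑ n ∈ J, ENNReal.ofReal (ratio s ^ (p n).length) := by
          rw [ENNReal.ofReal_sum_of_nonneg]
          intro i _
          positivity
      _ ≤ ∑ n ∈ J, ((⨆ _ : (t n).Nonempty, Metric.ediam (t n) ^ (s : ℝ)) +
            ENNReal.ofReal (c / 4 * (1 / 2) ^ ((n : ℕ) + 1))) := by
          apply Finset.sum_le_sum
          intro n _
          rw [← pow_rpow_eq]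
          calc ((2⁻¹ : ℝ≥0∞) ^ (p n).length) ^ (s : ℝ)
              ≤ (max (Metric.ediam (t n)) ((2⁻¹ : ℝ≥0∞) ^ (N n))) ^ (s : ℝ) :=
                ENNReal.rpow_le_rpow (hp n n.2).2 s.2
            _ ≤ Metric.ediam (t n) ^ (s : ℝ) + ((2⁻¹ : ℝ≥0∞) ^ (N n)) ^ (s : ℝ) := by
                rcases le_total (Metric.ediam (t n)) ((2⁻¹ : ℝ≥0∞) ^ (N n)) with h | h
                · rw [max_eq_right h]; exact le_add_self
                · rw [max_eq_left h]; exact le_self_add
            _ ≤ _ := by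
                gcongr
                · exact le_iSup (fun _ : (t n).Nonempty => Metric.ediam (t n) ^ (s : ℝ)) n.2
                · rw [pow_rpow_eq]
                  exact ENNReal.ofReal_le_ofReal (hN n).le
      _ ≤ (∑' n, ⨆ _ : (t n).Nonempty, Metric.ediam (t n) ^ (s : ℝ)) +
            ∑' n : ℕ, ENNReal.ofReal (c / 4 * (1 / 2) ^ (n + 1)) := by
          rw [Finset.sum_add_distrib]
          refine add_le_add ?_ ?_
          · exact (ENNReal.sum_le_tsum (f := fun n : {n // (t n).Nonempty} =>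
              ⨆ _ : (t n).Nonempty, Metric.ediam (t n) ^ (s : ℝ)) J).trans
              (ENNReal.tsum_comp_le_tsum_of_injective Subtype.val_injective
                (fun n => ⨆ _ : (t n).Nonempty, Metric.ediam (t n) ^ (s : ℝ)))
          · exact (ENNReal.sum_le_tsum (f := fun n : {n // (t n).Nonempty} =>
              ENNReal.ofReal (c / 4 * (1 / 2) ^ ((n : ℕ) + 1))) J).trans
              (ENNReal.tsum_comp_le_tsum_of_injective Subtype.val_injective
                (fun n : ℕ => ENNReal.ofReal (c / 4 * (1 / 2) ^ (n + 1))))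
      _ < ENNReal.ofReal (c / 4) + ENNReal.ofReal (c / 4) := by
          have hgeom : ∑' n : ℕ, ENNReal.ofReal (c / 4 * (1 / 2) ^ (n + 1)) =
              ENNReal.ofReal (c / 4) := by
            rw [← ENNReal.ofReal_tsum_of_nonneg (fun n => by positivity)]
            · congr 1
              have : ∀ n : ℕ, c / 4 * (1 / 2 : ℝ) ^ (n + 1) = c / 8 * (1 / 2) ^ n := by
                intro n; ring
              simp_rw [this]
              rw [tsum_mul_left, tsum_geometric_two]
              ring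
            · have : (fun n : ℕ => c / 4 * (1 / 2 : ℝ) ^ (n + 1)) =
                  fun n : ℕ => c / 8 * (1 / 2) ^ n := by
                funext n; ring
              rw [this]
              exact summable_geometric_two.mul_left _
          rw [hgeom]
          exact ENNReal.add_lt_add_right ENNReal.ofReal_ne_top hsum
      _ ≤ ENNReal.ofReal c := by
          rw [← ENNReal.ofReal_add (by positivity) (by positivity)]
          apply ENNReal.ofReal_le_ofReal
          linarith
  have h5 := (ENNReal.ofReal_lt_ofReal_iff hc0).1 h4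
  linarith

/-- Every closed set of dimension greater than `s` contains a closed set of dimension `s`. -/
theorem exists_subset_dimH_of_isClosed {K₀ : Set (ℕ → Bool)} (hK₀ : IsClosed K₀) {s : ℝ≥0}
    (h : (s : ℝ≥0∞) < dimH K₀) : ∃ K ⊆ K₀, dimH K = s := by
  rcases eq_zero_or_pos (a := s) with rfl | hs
  · exact ⟨∅, empty_subset _, by simp⟩
  have hr0 := ratio_pos s
  have hr1 := ratio_lt_one hs
  have hH : μH[(s : ℝ)] K₀ = ∞ := hausdorffMeasure_of_lt_dimH h
  set A : Set ℝ := {a | ∃ F, Cov K₀ F ∧ cost (ratio s) F = a} with hA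
  have hbdd : BddBelow A := ⟨0, by rintro _ ⟨F, -, rfl⟩; exact cost_nonneg hr0 F⟩
  have hne : A.Nonempty := ⟨_, {[]}, by simp [Cov], rfl⟩
  set c := sInf A with hcdef
  have hc : ∀ F, Cov K₀ F → c ≤ cost (ratio s) F := fun F hF => csInf_le hbdd ⟨F, hF, rfl⟩
  have hinf : ∀ ε > 0, ∃ F, Cov K₀ F ∧ cost (ratio s) F ≤ c + ε := by
    intro ε hε
    obtain ⟨_, ⟨F, hF, rfl⟩, hlt⟩ := exists_lt_of_csInf_lt hne (show sInf A < c + ε by linarith)
    exact ⟨F, hF, hlt.le⟩
  have hc0 : 0 < c := by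
    by_contra hcn
    have : μH[(s : ℝ)] K₀ = 0 := by
      apply hausdorff_zero_of_small hs
      intro ε hε
      obtain ⟨F, hF, hF'⟩ := hinf ε hε
      exact ⟨F, hF, by linarith⟩
    rw [this] at hH
    exact ENNReal.zero_ne_top hH
  obtain ⟨K, hK⟩ := exists_minimal hK₀ hc
  refine ⟨K, hK.1.2.1, le_antisymm ?_ ?_⟩
  · exact dimH_le_of_fine (C := c + 1) fun n => minimal_fine hr0 hr1 hinf hK n 1 one_pos
  · exact le_dimH_of_content hK.1.1 hs hc0 hK.1.2.2

/-- A countable union of closed sets of dimension at least `δ` contains a set of dimension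
exactly `δ`. -/
theorem exists_subset_dimH {ι : Type*} [Countable ι] {K : ι → Set (ℕ → Bool)}
    (hK : ∀ i, IsClosed (K i)) {δ : ℝ≥0∞} (hδ : δ ≠ ∞) (h : δ ≤ dimH (⋃ i, K i)) :
    ∃ D ⊆ ⋃ i, K i, dimH D = δ := by
  rcases h.eq_or_lt with h | h
  · exact ⟨_, Subset.rfl, h.symm⟩
  · rw [dimH_iUnion, lt_iSup_iff] at h
    obtain ⟨i, hi⟩ := h
    lift δ to ℝ≥0 using hδ
    obtain ⟨D, hD, hD'⟩ := exists_subset_dimH_of_isClosed (hK i) hi
    exact ⟨D, hD.trans (subset_iUnion _ _), hD'⟩

/-- Counting criterion: if the points of `S` are determined up to their first `2 m` digits by `m`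
digits of `f x`, then `S` has dimension at most `1 / 2`. -/
theorem dimH_le_half {S : Set (ℕ → Bool)} (f : (ℕ → Bool) → (ℕ → Bool))
    (h : ∀ x ∈ S, ∀ y ∈ S, ∀ m, seg (f x) m = seg (f y) m → seg x (2 * m) = seg y (2 * m)) :
    dimH S ≤ (1 / 2 : ℝ≥0∞) := by
  classical
  have h2 : ((1 / 2 : ℝ≥0) : ℝ≥0∞) = (1 / 2 : ℝ≥0∞) := by
    rw [ENNReal.coe_div (by norm_num)]; simp
  rw [← h2]
  apply dimH_le_of_fine (C := 1)
  intro n
  -- for each list of length `n` choose a cylinder
  have hch : ∀ l : List Bool, ∃ q : List Bool, q.length = 2 * n ∧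
      ∀ x ∈ S, seg (f x) n = l → x ∈ cyl q := by
    intro l
    by_cases hl : ∃ x ∈ S, seg (f x) n = l
    · obtain ⟨x, hx, hxl⟩ := hl
      refine ⟨seg x (2 * n), by simp, ?_⟩
      intro y hy hyl
      rw [mem_cyl]
      simp only [seg_length]
      exact h y hy x hx n (hyl.trans hxl.symm)
    · refine ⟨List.replicate (2 * n) true, by simp, ?_⟩
      intro y hy hyl
      exact absurd ⟨y, hy, hyl⟩ hl
  choose q hq1 hq2 using hch
  set L : Finset (List Bool) := (Finset.univ : Finset (List.Vector Bool n)).image (fun v => v.1)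
    with hL
  have hLc : L.card ≤ 2 ^ n := by
    refine Finset.card_image_le.trans ?_
    rw [Finset.card_univ, card_vector]
    simp
  refine ⟨L.image q, ?_, ?_, ?_⟩
  · intro p hp
    rw [Finset.mem_image] at hp
    obtain ⟨l, -, rfl⟩ := hp
    rw [hq1]; omega
  · rw [cov_iff]
    intro x hx
    refine ⟨q (seg (f x) n), ?_, hq2 _ x hx rfl⟩
    refine Finset.mem_image_of_mem _ ?_
    rw [hL, Finset.mem_image]
    exact ⟨⟨seg (f x) n, by simp⟩, Finset.mem_univ _, rfl⟩
  · have hr : ratio (1 / 2) ^ (2 * n) = (1 / 2 : ℝ) ^ n := by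
      rw [pow_mul]
      congr 1
      unfold ratio
      rw [← Real.rpow_natCast, ← Real.rpow_mul (by norm_num)]
      norm_num
    calc cost (ratio (1 / 2)) (L.image q)
        = ∑ p ∈ L.image q, (1 / 2 : ℝ) ^ n := by
          unfold cost
          apply Finset.sum_congr rfl
          intro p hp
          rw [Finset.mem_image] at hp
          obtain ⟨l, -, rfl⟩ := hp
          rw [hq1, hr]
      _ = (L.image q).card * (1 / 2 : ℝ) ^ n := by rw [Finset.sum_const, nsmul_eq_mul]
      _ ≤ (2 : ℝ) ^ n * (1 / 2 : ℝ) ^ n := by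
          gcongr
          calc ((L.image q).card : ℝ) ≤ (L.card : ℝ) := by exact_mod_cast Finset.card_image_le
            _ ≤ (2 : ℝ) ^ n := by exact_mod_cast hLc
      _ = 1 := by rw [← mul_pow]; norm_num

end Pool.Agent.Helper59.TreeGame
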