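import Pool.Agent.Helper59.TreeGameCore

open Set Filter MeasureTheory Topology Cardinal
open scoped ENNReal NNReal

namespace Pool.Agent.Helper59.TreeGame

attribute [local instance] cantorMetric

theorem isClosed_canopy (T : Set (List Bool)) : IsClosed (canopy T) := by
  have : canopy T = (⋃ q : {q : List Bool // q ∉ T}, cyl q.1)ᶜ := by
    ext x
    simp only [mem_compl_iff, mem_iUnion, not_exists]
    constructor
    · rintro hx ⟨q, hq⟩ hxq
      have h1 := hx q.length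
      rw [mem_cyl.1 hxq] at h1
      exact hq h1
    · intro h n
      by_contra hn
      exact h ⟨seg x n, hn⟩ (mem_cyl_seg x n)
  rw [this]
  exact (isOpen_iUnion fun q => isOpen_cyl _).isClosed_compl

theorem dimH_le_one (A : Set (ℕ → Bool)) : dimH A ≤ 1 := by
  classical
  rw [← ENNReal.coe_one]
  apply dimH_le_of_fine (C := 1)
  intro n
  set L : Finset (List Bool) := (Finset.univ : Finset (List.Vector Bool n)).image (fun v => v.1)
    with hL
  have hLc : L.card ≤ 2 ^ n := by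
    refine Finset.card_image_le.trans ?_
    rw [Finset.card_univ, card_vector]
    simp
  have hlen : ∀ q ∈ L, q.length = n := by
    intro q hq
    rw [hL, Finset.mem_image] at hq
    obtain ⟨v, -, rfl⟩ := hq
    exact v.2
  refine ⟨L, fun q hq => (hlen q hq).ge, ?_, ?_⟩
  · rw [cov_iff]
    intro x _
    refine ⟨seg x n, ?_, mem_cyl_seg x n⟩
    rw [hL, Finset.mem_image]
    exact ⟨⟨seg x n, by simp⟩, Finset.mem_univ _, rfl⟩
  · have hr : ratio 1 = 1 / 2 := by
      unfold ratio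
      norm_num [Real.rpow_neg_one]
    calc cost (ratio 1) L = ∑ p ∈ L, (1 / 2 : ℝ) ^ n := by
          unfold cost
          apply Finset.sum_congr rfl
          intro p hp
          rw [hlen p hp, hr]
      _ = L.card * (1 / 2 : ℝ) ^ n := by rw [Finset.sum_const, nsmul_eq_mul]
      _ ≤ (2 : ℝ) ^ n * (1 / 2 : ℝ) ^ n := by
          gcongr
          exact_mod_cast hLc
      _ = 1 := by rw [← mul_pow]; norm_num

/-- Removing a small relatively closed set leaves room for sets of every dimension. -/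
theorem exists_avoiding {T : Set (List Bool)} (hT : (1 / 2 : ℝ≥0∞) < dimH (canopy T))
    {A : Set (ℕ → Bool)} (hA : dimH A ≤ (1 / 2 : ℝ≥0∞))
    (hcl : ∀ x ∈ canopy T, x ∉ A → ∃ n, ∀ y ∈ cyl (seg x n), y ∉ A)
    {δ : ℝ≥0∞} (hδ : δ ≤ dimH (canopy T)) :
    ∃ D ⊆ canopy T, (∀ x ∈ D, x ∉ A) ∧ dimH D = δ := by
  set Q := {q : List Bool // ∀ y ∈ cyl q, y ∉ A} with hQ
  set X : Set (ℕ → Bool) := ⋃ q : Q, (canopy T ∩ cyl q.1) with hX
  have h1 : canopy T ⊆ X ∪ A := by
    intro x hx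
    by_cases hxA : x ∈ A
    · right; exact hxA
    · left
      obtain ⟨n, hn⟩ := hcl x hx hxA
      exact mem_iUnion.2 ⟨⟨seg x n, hn⟩, hx, mem_cyl_seg x n⟩
  have h2 : dimH (canopy T) ≤ dimH X := by
    have h3 := dimH_mono h1
    rw [dimH_union] at h3
    rcases le_max_iff.1 h3 with h | h
    · exact h
    · exact absurd (h.trans hA) (not_le.2 hT)
  have hfin : δ ≠ ∞ := ne_top_of_le_ne_top ENNReal.one_ne_top (hδ.trans (dimH_le_one _))
  obtain ⟨D, hD, hD'⟩ := exists_subset_dimH (K := fun q : Q => canopy T ∩ cyl q.1)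
    (fun q => (isClosed_canopy T).inter (isClosed_cyl _)) hfin (hδ.trans h2)
  refine ⟨D, ?_, ?_, hD'⟩
  · intro x hx
    obtain ⟨q, hq⟩ := mem_iUnion.1 (hD hx)
    exact hq.1
  · intro x hx
    obtain ⟨q, hq⟩ := mem_iUnion.1 (hD hx)
    exact q.2 x hq.2

/-- the set of sequences extending `q` in which the digits at the later positions of parity `e`
follow `s` -/
def follow (e : ℕ) (s : List Bool → Bool) (q : List Bool) : Set (ℕ → Bool) :=
  {x | x ∈ cyl q ∧ ∀ k, q.length ≤ k → k % 2 = e → x k = s (seg x k)}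

theorem dimH_follow {e : ℕ} (he : e < 2) (s : List Bool → Bool) (q : List Bool) :
    dimH (follow e s q) ≤ (1 / 2 : ℝ≥0∞) := by
  apply dimH_le_half_of_determined (n₀ := q.length) he
  · intro x hx y hy
    have h1 := hx.1
    have h2 := hy.1
    rw [mem_cyl] at h1 h2
    rw [h1, h2]
  · intro x hx y hy i hi hie hxy
    rw [hx.2 i hi hie, hy.2 i hi hie, hxy]

theorem follow_rel_closed {e : ℕ} (s : List Bool → Bool) {x : ℕ → Bool}
    (hx : x ∉ follow e s []) : ∃ n, ∀ y ∈ cyl (seg x n), y ∉ follow e s [] := by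
  have : ∃ k, k % 2 = e ∧ x k ≠ s (seg x k) := by
    by_contra h
    push Not at h
    exact hx ⟨by simp, fun k _ hk => h k hk⟩
  obtain ⟨k, hke, hk⟩ := this
  refine ⟨k + 1, fun y hy hyf => hk ?_⟩
  rw [mem_cyl, seg_length, seg_eq_iff] at hy
  have h1 := hyf.2 k (by simp) hke
  have h2 : seg y k = seg x k := seg_eq_iff.2 fun i hi => hy i (by omega)
  rw [← hy k (by omega), h1, h2]

namespace Scheme

variable {T : Set (List Bool)} (S : Scheme T)

/-- `x` leaves the embedded tree at position `n` -/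
def Exit (x : ℕ → Bool) (n : ℕ) : Prop := seg x n ∈ S.nodes ∧ seg x (n + 1) ∉ S.nodes

theorem seg_mem_of_le {x : ℕ → Bool} {m n : ℕ} (h : m ≤ n) (hn : seg x n ∈ S.nodes) :
    seg x m ∈ S.nodes := by
  rw [← List.take_append_drop m (seg x n), take_seg x h] at hn
  exact S.nodes_of_append hn

theorem exit_unique {x : ℕ → Bool} {m n : ℕ} (hm : S.Exit x m) (hn : S.Exit x n) : m = n := by
  rcases lt_trichotomy m n with h | h | h
  · exact absurd (S.seg_mem_of_le (show m + 1 ≤ n from h) hn.1) hm.2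
  · exact h
  · exact absurd (S.seg_mem_of_le (show n + 1 ≤ m from h) hm.1) hn.2

theorem exists_exit {x : ℕ → Bool} (hx : x ∉ range S.Φ) : ∃ n, S.Exit x n := by
  classical
  have h1 : ∃ n, seg x n ∉ S.nodes := by
    by_contra h
    push Not at h
    exact hx (S.mem_range_of_nodes h)
  set n := Nat.find h1 with hn
  have h2 : seg x n ∉ S.nodes := Nat.find_spec h1
  have h3 : n ≠ 0 := by
    intro h0
    rw [h0] at h2
    exact h2 (by simpa using S.nil_mem)
  obtain ⟨m, hm⟩ := Nat.exists_eq_succ_of_ne_zero h3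
  refine ⟨m, ?_, ?_⟩
  · by_contra hc
    have := Nat.find_min' h1 hc
    omega
  · rw [hm] at h2; exact h2

theorem not_mem_range_of_exit {x : ℕ → Bool} {n : ℕ} (h : S.Exit x n) : x ∉ range S.Φ := by
  rintro ⟨z, rfl⟩
  exact h.2 (S.seg_mem_nodes z _)

theorem exit_of_mem_cyl {x y : ℕ → Bool} {n m : ℕ} (h : S.Exit x n) (hm : n + 1 ≤ m)
    (hy : y ∈ cyl (seg x m)) : S.Exit y n := by
  rw [mem_cyl, seg_length, seg_eq_iff] at hy
  have h1 : seg y n = seg x n := seg_eq_iff.2 fun i hi => hy i (by omega)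
  have h2 : seg y (n + 1) = seg x (n + 1) := seg_eq_iff.2 fun i hi => hy i (by omega)
  exact ⟨h1 ▸ h.1, h2 ▸ h.2⟩

/-- sequences leaving the embedded tree at a position of parity `e`, after which the digits at the
positions of the other parity follow `mv` -/
def Pun (mv : List Bool → Bool) (e : ℕ) : Set (ℕ → Bool) :=
  {x | ∃ n, n % 2 = e ∧ S.Exit x n ∧ ∀ k, n < k → k % 2 = 1 - e → x k = mv (seg x k)}

theorem dimH_Pun (mv : List Bool → Bool) (e : ℕ) (he : e < 2) :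
    dimH (S.Pun mv e) ≤ (1 / 2 : ℝ≥0∞) := by
  have h1 : S.Pun mv e ⊆ ⋃ q : List Bool, follow (1 - e) mv q := by
    rintro x ⟨n, -, -, hn⟩
    refine mem_iUnion.2 ⟨seg x (n + 1), mem_cyl_seg _ _, fun k hk => hn k ?_⟩
    simpa using hk
  refine (dimH_mono h1).trans ?_
  rw [dimH_iUnion]
  exact iSup_le fun q => dimH_follow (by omega) mv q

/-- the relatively closed set avoided by the added set -/
theorem rel_closed (mv : List Bool → Bool) {x : ℕ → Bool}
    (hx : x ∉ range S.Φ ∪ S.Pun mv 0) :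
    ∃ n, ∀ y ∈ cyl (seg x n), y ∉ range S.Φ ∪ S.Pun mv 0 := by
  rw [mem_union, not_or] at hx
  obtain ⟨n, hn⟩ := S.exists_exit hx.1
  by_cases hn2 : n % 2 = 0
  · have : ∃ k, n < k ∧ k % 2 = 1 ∧ x k ≠ mv (seg x k) := by
      by_contra h
      push Not at h
      exact hx.2 ⟨n, hn2, hn, fun k hk hk' => h k hk (by simpa using hk')⟩
    obtain ⟨k, hnk, hk1, hk⟩ := this
    refine ⟨k + 1, fun y hy => ?_⟩
    have hy' := S.exit_of_mem_cyl hn (by omega) hy
    rw [mem_union, not_or]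
    refine ⟨S.not_mem_range_of_exit hy', ?_⟩
    rintro ⟨m, hm, hm1, hm2⟩
    rw [S.exit_unique hm1 hy'] at hm2
    have h3 := hm2 k hnk (by simpa using hk1)
    rw [mem_cyl, seg_length, seg_eq_iff] at hy
    have h4 : seg y k = seg x k := seg_eq_iff.2 fun i hi => hy i (by omega)
    apply hk
    rw [← hy k (by omega), h3, h4]
  · refine ⟨n + 1, fun y hy => ?_⟩
    have hy' := S.exit_of_mem_cyl hn le_rfl hy
    rw [mem_union, not_or]
    refine ⟨S.not_mem_range_of_exit hy', ?_⟩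
    rintro ⟨m, hm, hm1, hm2⟩
    rw [S.exit_unique hm1 hy'] at hm
    exact hn2 hm

/-- codes of the branches consistent with `s` for the player of parity `e` -/
def good (e : ℕ) (s : List Bool → Bool) : Set (ℕ → Bool) :=
  {z | ∀ i, i % 2 = e → S.Φ z i = s (seg (S.Φ z) i)}

theorem continuum_le_good {e : ℕ} (he : e < 2) (s : List Bool → Bool)
    (hs : ∀ z i, i % 2 = e → (∀ k < i, k % 2 = e → S.Φ z k = s (seg (S.Φ z) k)) →
      seg (S.Φ z) i ++ [s (seg (S.Φ z) i)] ∈ S.nodes) : 𝔠 ≤ #(S.good e s) := by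
  choose f hf1 hf2 using S.exists_follow he s hs
  have : Function.Injective (fun c : ℕ → Bool => (⟨f c, hf2 c⟩ : S.good e s)) := by
    intro c c' h
    have h' : f c = f c' := congrArg Subtype.val h
    funext k
    rw [← hf1 c k, ← hf1 c' k, h']
  have h2 := Cardinal.mk_le_of_injective this
  rwa [show #(ℕ → Bool) = 𝔠 by simp] at h2

/-- A set of codes which splits all strategies. -/
theorem exists_split : ∃ Z : Set (ℕ → Bool),
    (∀ s, 𝔠 ≤ #(S.good 0 s) → ∃ z ∈ S.good 0 s, z ∉ Z) ∧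
    (∀ s, 𝔠 ≤ #(S.good 1 s) → ∃ z ∈ S.good 1 s, z ∈ Z) := by
  let ι := {p : Bool × (List Bool → Bool) // 𝔠 ≤ #(S.good (cond p.1 1 0) p.2)}
  have hι : #ι ≤ 𝔠 := by
    refine (Cardinal.mk_subtype_le _).trans ?_
    simp
  obtain ⟨g, hg1, hg2⟩ := exists_injective_choice (fun i : ι => S.good (cond i.1.1 1 0) i.1.2)
    (fun i => hι.trans i.2)
  refine ⟨{z | ∃ i : ι, i.1.1 = true ∧ g i = z}, ?_, ?_⟩
  · intro s hs
    refine ⟨g ⟨(false, s), hs⟩, hg2 ⟨(false, s), hs⟩, ?_⟩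
    rintro ⟨i, hi, hgi⟩
    have := hg1 hgi
    rw [this] at hi
    exact absurd hi (by simp)
  · intro s hs
    exact ⟨g ⟨(true, s), hs⟩, hg2 ⟨(true, s), hs⟩, ⟨(true, s), hs⟩, rfl, rfl⟩

/-- The key non-determinacy statement. -/
theorem not_determined (hT : IsSubtree T) {mv : List Bool → Bool}
    (hmv : ∀ p ∈ T, p ++ [mv p] ∈ T) {Z : Set (ℕ → Bool)}
    (hZ0 : ∀ s, 𝔠 ≤ #(S.good 0 s) → ∃ z ∈ S.good 0 s, z ∉ Z)
    (hZ1 : ∀ s, 𝔠 ≤ #(S.good 1 s) → ∃ z ∈ S.good 1 s, z ∈ Z)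
    {W : Set (ℕ → Bool)} (hW1 : S.Φ '' Z ⊆ W) (hW2 : S.Pun mv 1 ∩ canopy T ⊆ W)
    (hW3 : ∀ z ∉ Z, S.Φ z ∉ W) (hW4 : ∀ x ∈ S.Pun mv 0, x ∉ W) : ¬ Determined T W := by
  -- constructing a play which leaves the embedded tree
  have key : ∀ e < 2, ∀ s : List Bool → Bool, (∀ p ∈ T, p.length % 2 = e → p ++ [s p] ∈ T) →
      ∀ z i, i % 2 = e → (∀ k < i, k % 2 = e → S.Φ z k = s (seg (S.Φ z) k)) →
      seg (S.Φ z) i ++ [s (seg (S.Φ z) i)] ∉ S.nodes →
      ∃ x ∈ canopy T, (∀ k, k % 2 = e → x k = s (seg x k)) ∧ x ∈ S.Pun mv e := by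
    intro e he s hs z i hie hcons hnot
    set p := seg (S.Φ z) i with hp
    have hpT : p ∈ T := S.Φ_mem_canopy hT z i
    have hpl : p.length = i := by simp [hp]
    have hpT' : p ++ [s p] ∈ T := hs p hpT (by rw [hpl]; exact hie)
    obtain ⟨x, hx1, hx2, hx3⟩ := exists_play hT (fun q => if q.length % 2 = e then s q else mv q)
      hpT' (by
        intro q hq _
        by_cases hqe : q.length % 2 = e
        · simp only [hqe, if_true]; exact hs q hq hqe
        · simp only [hqe, if_false]; exact hmv q hq)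
    rw [mem_cyl_append_singleton, hpl] at hx2
    have hxp : seg x i = p := by have := hx2.1; rw [mem_cyl, hpl] at this; exact this
    have hlen : (p ++ [s p]).length = i + 1 := by simp [hpl]
    rw [hlen] at hx3
    have hagree : ∀ k < i, x k = S.Φ z k := seg_eq_iff.1 hxp
    refine ⟨x, hx1, ?_, i, hie, ⟨?_, ?_⟩, ?_⟩
    · intro k hke
      rcases lt_trichotomy k i with h | h | h
      · have h5 : seg x k = seg (S.Φ z) k := seg_eq_iff.2 fun j hj => hagree j (by omega)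
        rw [hagree k h, hcons k h hke, h5]
      · rw [h, hxp]; exact hx2.2
      · have := hx3 k h
        simpa [hke] using this
    · rw [hxp]; exact S.seg_mem_nodes z i
    · rw [seg_succ, hxp, hx2.2]; exact hnot
    · intro k hk hke
      have := hx3 k hk
      have hke' : ¬ k % 2 = e := by omega
      simpa [hke'] using this
  rintro (⟨σ, hσ1, hσ2⟩ | ⟨τ, hτ1, hτ2⟩)
  · have hσ1' : ∀ p ∈ T, p.length % 2 = 0 → p ++ [σ p] ∈ T := fun p hp h =>
      hσ1 p hp (Nat.even_iff.2 h)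
    by_cases hs : ∀ z i, i % 2 = 0 → (∀ k < i, k % 2 = 0 → S.Φ z k = σ (seg (S.Φ z) k)) →
      seg (S.Φ z) i ++ [σ (seg (S.Φ z) i)] ∈ S.nodes
    · obtain ⟨z, hz, hzZ⟩ := hZ0 σ (S.continuum_le_good (by norm_num) σ hs)
      exact hW3 z hzZ (hσ2 _ (S.Φ_mem_canopy hT z) fun n hn => hz n (Nat.even_iff.1 hn))
    · push Not at hs
      obtain ⟨z, i, hi1, hi2, hi3⟩ := hs
      obtain ⟨x, hx1, hx2, hx3⟩ := key 0 (by norm_num) σ hσ1' z i hi1 hi2 hi3
      exact hW4 x hx3 (hσ2 x hx1 fun n hn => hx2 n (Nat.even_iff.1 hn))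
  · have hτ1' : ∀ p ∈ T, p.length % 2 = 1 → p ++ [τ p] ∈ T := fun p hp h =>
      hτ1 p hp (Nat.odd_iff.2 h)
    by_cases hs : ∀ z i, i % 2 = 1 → (∀ k < i, k % 2 = 1 → S.Φ z k = τ (seg (S.Φ z) k)) →
      seg (S.Φ z) i ++ [τ (seg (S.Φ z) i)] ∈ S.nodes
    · obtain ⟨z, hz, hzZ⟩ := hZ1 τ (S.continuum_le_good (by norm_num) τ hs)
      exact hτ2 _ (S.Φ_mem_canopy hT z) (fun n hn => hz n (Nat.odd_iff.1 hn))
        (hW1 ⟨z, hzZ, rfl⟩)
    · push Not at hs
      obtain ⟨z, i, hi1, hi2, hi3⟩ := hs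
      obtain ⟨x, hx1, hx2, hx3⟩ := key 1 (by norm_num) τ hτ1' z i hi1 hi2 hi3
      exact hτ2 x hx1 (fun n hn => hx2 n (Nat.odd_iff.1 hn)) (hW2 ⟨hx3, hx1⟩)

end Scheme

theorem main {T : Set (List Bool)} (hT : IsSubtree T) (hd : (1 / 2 : ℝ≥0∞) < dimH (canopy T))
    {δ : ℝ≥0∞} (h1 : (1 / 2 : ℝ≥0∞) ≤ δ) (h2 : δ ≤ dimH (canopy T)) :
    (∃ W ⊆ canopy T, dimH W = δ ∧ ¬ Determined T W) ∧
    (∃ W ⊆ canopy T, dimH W = δ ∧ WinsI T W) ∧
    (∃ W ⊆ canopy T, dimH W = δ ∧ WinsII T W) := by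
  obtain ⟨mv, hmv⟩ := exists_move hT
  refine ⟨?_, ?_, ?_⟩
  · obtain ⟨S⟩ := exists_scheme hd
    obtain ⟨Z, hZ0, hZ1⟩ := S.exists_split
    have hA : dimH (range S.Φ ∪ S.Pun mv 0) ≤ (1 / 2 : ℝ≥0∞) := by
      rw [dimH_union]
      exact max_le S.range_dim (S.dimH_Pun mv 0 (by norm_num))
    obtain ⟨D, hD1, hD2, hD3⟩ := exists_avoiding hd hA (fun x _ hx => S.rel_closed mv hx) h2
    refine ⟨(S.Φ '' Z ∪ (S.Pun mv 1 ∩ canopy T)) ∪ D, ?_, ?_, ?_⟩
    · rintro x ((⟨z, -, rfl⟩ | hx) | hx)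
      · exact S.Φ_mem_canopy hT z
      · exact hx.2
      · exact hD1 hx
    · rw [dimH_union, hD3]
      apply max_eq_right
      refine le_trans ?_ h1
      rw [dimH_union]
      exact max_le ((dimH_mono (image_subset_range _ _)).trans S.range_dim)
        ((dimH_mono inter_subset_left).trans (S.dimH_Pun mv 1 (by norm_num)))
    · refine S.not_determined hT hmv hZ0 hZ1 ?_ ?_ ?_ ?_
      · exact fun x hx => Or.inl (Or.inl hx)
      · exact fun x hx => Or.inl (Or.inr hx)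
      · rintro z hz ((⟨z', hz', hzz⟩ | hx) | hx)
        · exact hz (S.Φ_injective hzz ▸ hz')
        · obtain ⟨⟨n, -, hn, -⟩, -⟩ := hx
          exact S.not_mem_range_of_exit hn ⟨z, rfl⟩
        · exact hD2 _ hx (Or.inl ⟨z, rfl⟩)
      · rintro x hx ((⟨z, -, rfl⟩ | hx') | hx')
        · obtain ⟨n, -, hn, -⟩ := hx
          exact S.not_mem_range_of_exit hn ⟨z, rfl⟩
        · obtain ⟨n, hn0, hn, -⟩ := hx
          obtain ⟨⟨m, hm0, hm, -⟩, -⟩ := hx'
          rw [S.exit_unique hn hm] at hn0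
          omega
        · exact hD2 _ hx' (Or.inr hx)
  · obtain ⟨D, hD1, -, hD3⟩ := exists_avoiding (A := ∅) hd (by simp)
      (fun x _ _ => ⟨0, fun y _ => by simp⟩) h2
    refine ⟨(follow 0 mv [] ∩ canopy T) ∪ D, ?_, ?_, ?_⟩
    · exact union_subset inter_subset_right hD1
    · rw [dimH_union, hD3]
      apply max_eq_right
      exact ((dimH_mono inter_subset_left).trans (dimH_follow (by norm_num) mv [])).trans h1
    · refine ⟨mv, fun p hp _ => hmv p hp, fun x hx hx' => Or.inl ⟨⟨by simp, ?_⟩, hx⟩⟩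
      intro k _ hk
      exact hx' k (Nat.even_iff.2 hk)
  · obtain ⟨D, hD1, hD2, hD3⟩ := exists_avoiding (A := follow 1 mv []) hd
      (dimH_follow (by norm_num) mv []) (fun x _ hx => follow_rel_closed mv hx) h2
    refine ⟨D, hD1, hD3, mv, fun p hp _ => hmv p hp, fun x hx hx' hxD => hD2 x hxD ⟨by simp, ?_⟩⟩
    intro k _ hk
    exact hx' k (Nat.odd_iff.2 hk)

end Pool.Agent.Helper59.TreeGame
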